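import Pool.Agent.Work.MP_814647_an.TH.Stmts

set_option autoImplicit false

open Set Filter Topology Function

noncomputable section

namespace Pool.Agent.OmegaStability.TH

universe u v

theorem prf_Baire : Baire.{u} := by
  intro X _ _ φ a b ε hab hε
  have : Nonempty X := ⟨φ 0⟩
  obtain ⟨c, hc⟩ := TopologicalSpace.exists_dense_seq X
  let T : ℕ → Set ℝ := fun i => {t | t ∈ Ioo a b ∧ dist (φ t) (c i) < ε / 2}
  have hT : ∀ t ∈ Ioo a b, ∃ i, t ∈ T i := by
    intro t ht
    obtain ⟨i, hi⟩ := hc.exists_dist_lt (φ t) (half_pos hε)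
    exact ⟨i, ht, hi⟩
  have hd : Dense (⋃ i, interior (closure (T i) ∪ (Ioo a b)ᶜ)) := by
    refine dense_iUnion_interior_of_closed
      (fun i => isClosed_closure.union isOpen_Ioo.isClosed_compl) ?_
    rw [eq_univ_iff_forall]
    intro t
    by_cases ht : t ∈ Ioo a b
    · obtain ⟨i, hi⟩ := hT t ht
      exact mem_iUnion.2 ⟨i, Or.inl (subset_closure hi)⟩
    · exact mem_iUnion.2 ⟨0, Or.inr ht⟩
  obtain ⟨t, ht, ht'⟩ := hd.exists_mem_open isOpen_Ioo (nonempty_Ioo.2 hab)
  obtain ⟨i, hi⟩ := mem_iUnion.1 ht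
  have hU : IsOpen (interior (closure (T i) ∪ (Ioo a b)ᶜ) ∩ Ioo a b) :=
    isOpen_interior.inter isOpen_Ioo
  obtain ⟨δ, hδ, hball⟩ := Metric.isOpen_iff.1 hU t ⟨hi, ht'⟩
  rw [Real.ball_eq_Ioo] at hball
  have hlt : t - δ < t + δ := by linarith
  have h1 : Icc (t - δ) (t + δ) ⊆ Icc a b := by
    rw [← closure_Ioo hlt.ne, ← closure_Ioo hab.ne]
    exact closure_mono fun x hx => (hball hx).2
  have h2 := (Icc_subset_Icc_iff hlt.le).1 h1
  refine ⟨t - δ, t + δ, h2.1, hlt, h2.2, T i ∩ Ioo (t - δ) (t + δ), inter_subset_right, ?_, ?_⟩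
  · intro s hs
    have h3 : s ∈ closure (T i) := by
      have h4 := hball hs
      rcases interior_subset h4.1 with h5 | h5
      · exact h5
      · exact absurd h4.2 h5
    rw [inter_comm]
    exact isOpen_Ioo.inter_closure ⟨hs, h3⟩
  · intro s hs s' hs'
    have h3 : dist (φ s) (c i) < ε / 2 := hs.1.2
    have h4 : dist (φ s') (c i) < ε / 2 := hs'.1.2
    have h5 := dist_triangle_right (φ s) (φ s') (c i)
    linarith

end Pool.Agent.OmegaStability.TH
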