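import Pool.Agent.Work.MP_814647_an.TH.Stmts

/-!
# Item Near: close conjugacies give close periodic points in the same fibre
-/

set_option autoImplicit false

open Set Filter Topology Function

noncomputable section

namespace Pool.Agent.OmegaStability.TH

universe u v

namespace NearAux

variable {M : Type u} [TopologicalSpace M]

theorem map_mem {f : M → M} (hf : Continuous f) {x : M} (hx : x ∈ Omega f) : f x ∈ Omega f := by
  intro U hU
  obtain ⟨n, hn, y, ⟨z, hz, rfl⟩, hy⟩ := hx (f ⁻¹' U) (hf.continuousAt hU)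
  refine ⟨n, hn, f (f^[n] z), ⟨f z, hz, ?_⟩, hy⟩
  rw [← Function.iterate_succ_apply, Function.iterate_succ_apply']

theorem periodic_mem {f : M → M} {n : ℕ} (hn : 0 < n) {x : M} (hx : f^[n] x = x) :
    x ∈ Omega f := by
  intro U hU
  exact ⟨n, hn, x, ⟨x, mem_of_mem_nhds hU, hx⟩, mem_of_mem_nhds hU⟩

theorem iter {f g : M → M} (hf : Continuous f) (h : Omega f ≃ₜ Omega g) (hh : Conj f g h)
    (n : ℕ) (x : Omega f) :
    ∃ hx : f^[n] x ∈ Omega f, (h ⟨f^[n] x, hx⟩ : M) = g^[n] (h x) := by
  induction n with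
  | zero => exact ⟨x.2, rfl⟩
  | succ n ih =>
    obtain ⟨hx, he⟩ := ih
    have hx' : f^[n + 1] x ∈ Omega f := by
      rw [Function.iterate_succ_apply']
      exact map_mem hf hx
    refine ⟨hx', ?_⟩
    rw [hh ⟨f^[n] x, hx⟩ ⟨f^[n + 1] x, hx'⟩ (Function.iterate_succ_apply' f n x), he,
      Function.iterate_succ_apply']

theorem per {f g : M → M} (hf : Continuous f) (h : Omega f ≃ₜ Omega g) (hh : Conj f g h)
    (n : ℕ) (x : Omega f) : f^[n] (x : M) = x ↔ g^[n] (h x : M) = h x := by
  obtain ⟨hx, he⟩ := iter hf h hh n x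
  rw [← he]
  constructor
  · intro h1
    congr 2
    exact Subtype.ext h1
  · intro h1
    have := h.injective (Subtype.ext h1)
    exact congrArg Subtype.val this

end NearAux

theorem prf_Near : Near.{u, v} := by
  intro M B _ _ _ π A κ hπ hκ hPE ε hε
  have huc : UniformContinuous π := CompactSpace.uniformContinuous_of_continuous hπ
  obtain ⟨δ₁, hδ₁, hδ⟩ := Metric.uniformContinuous_iff.mp huc κ hκ
  refine ⟨min δ₁ ε, lt_min hδ₁ hε, ?_⟩
  intro f F G hf hF hG h k hh hk hd n z hn hz
  have hFi : ∀ (j : ℕ) (y : M), π (F^[j] y) = A^[j] (π y) := by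
    intro j
    induction j with
    | zero => intro y; rfl
    | succ j ih =>
      intro y
      rw [Function.iterate_succ_apply, Function.iterate_succ_apply, ih, hF]
  have hGi : ∀ (j : ℕ) (y : M), π (G^[j] y) = A^[j] (π y) := by
    intro j
    induction j with
    | zero => intro y; rfl
    | succ j ih =>
      intro y
      rw [Function.iterate_succ_apply, Function.iterate_succ_apply, ih, hG]
  obtain ⟨x, hx⟩ := h.surjective ⟨z, NearAux.periodic_mem hn hz⟩
  have hxz : (h x : M) = z := congrArg Subtype.val hx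
  have hfx : f^[n] (x : M) = x := by
    rw [NearAux.per hf h hh n x, hxz]
    exact hz
  have hGk : G^[n] (k x : M) = k x := (NearAux.per hf k hk n x).mp hfx
  have hdj : ∀ j : ℕ, dist (F^[j] z) (G^[j] (k x : M)) < min δ₁ ε := by
    intro j
    obtain ⟨h1, h2⟩ := NearAux.iter hf h hh j x
    obtain ⟨h3, h4⟩ := NearAux.iter hf k hk j x
    rw [← hxz, ← h2, ← h4]
    exact hd ⟨f^[j] x, h1⟩
  refine ⟨k x, hGk, ?_, ?_⟩
  · symm
    refine hPE n (π z) (π (k x)) hn ?_ ?_ ?_
    · rw [← hFi, hz]
    · rw [← hGi, hGk]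
    · intro j _
      rw [← hFi, ← hGi]
      exact (hδ (lt_of_lt_of_le (hdj j) (min_le_left _ _))).le
  · have := hdj 0
    exact (lt_of_lt_of_le this (min_le_right _ _)).le

end Pool.Agent.OmegaStability.TH
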