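import Pool.Agent.Work.MP_814647_an.TopStatement

/-!
# Topological hyperbolicity of Omega-stable circle extensions: the items
-/

set_option autoImplicit false

open Set Filter Topology Function

noncomputable section

namespace Pool.Agent.OmegaStability.TH

universe u v

/-- `h` conjugates `f` and `g` on their nonwandering sets. -/
def Conj {M : Type u} [TopologicalSpace M] (f g : M → M) (h : Omega f ≃ₜ Omega g) : Prop :=
  ∀ x y : Omega f, (y : M) = f x → (h y : M) = g (h x)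

/-- Every `n`-periodic point of `F` has within `ε` an `n`-periodic point of `G` in the same
fibre. -/
def Follows {M : Type u} {B : Type v} [MetricSpace M] (π : M → B) (F G : M → M) (ε : ℝ) : Prop :=
  ∀ (n : ℕ) (z : M), 0 < n → F^[n] z = z → ∃ z', G^[n] z' = z' ∧ π z' = π z ∧ dist z z' ≤ ε

/-- Each periodic point of `F t` can be followed to the parameters near `t`. -/
def ContAt {M : Type u} {B : Type v} [MetricSpace M] (π : M → B) (F : ℝ → M → M) (t : ℝ) : Prop :=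
  ∀ (n : ℕ) (z : M), 0 < n → (F t)^[n] z = z → ∀ ε > 0, ∃ η > 0, ∀ s, |s - t| < η →
    ∃ z', (F s)^[n] z' = z' ∧ π z' = π z ∧ dist z z' < ε

/-- The periodic points of the maps `F s`, `s` near `t`, are uniformly close to those of
`F t`. -/
def StableAt {M : Type u} {B : Type v} [MetricSpace M] (π : M → B) (F : ℝ → M → M) (t : ℝ) :
    Prop :=
  ∀ ε > 0, ∃ η > 0, ∀ s, |s - t| < η → Follows π (F s) (F t) ε

/-- `F` is expansive on its periodic points, with constant `e`. -/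
def PE {M : Type u} [MetricSpace M] (F : M → M) (e : ℝ) : Prop :=
  ∀ (n : ℕ) (p q : M), 0 < n → F^[n] p = p → F^[n] q = q →
    (∀ j < n, dist (F^[j] p) (F^[j] q) ≤ e) → p = q

/-- There is a chain from `x` to `y` with jumps smaller than `δ`. -/
def Chain {M : Type u} [MetricSpace M] (F : M → M) (δ : ℝ) (x y : M) : Prop :=
  ∃ (n : ℕ) (c : ℕ → M), 0 < n ∧ c 0 = x ∧ c n = y ∧ ∀ j < n, dist (F (c j)) (c (j + 1)) < δ

/-! ### The items -/

/-- Item Baire. -/
def Baire : Prop :=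
  ∀ (X : Type u) [PseudoMetricSpace X] [TopologicalSpace.SeparableSpace X] (φ : ℝ → X)
    (a b ε : ℝ), a < b → 0 < ε →
    ∃ a' b' : ℝ, a ≤ a' ∧ a' < b' ∧ b' ≤ b ∧ ∃ S : Set ℝ, S ⊆ Ioo a' b' ∧
      Ioo a' b' ⊆ closure S ∧ ∀ s ∈ S, ∀ s' ∈ S, dist (φ s) (φ s') < ε

/-- Item BaseEq. -/
def BaseEq : Prop :=
  ∀ (B : Type v) [MetricSpace B] (A : B → B), ExpansiveOnPeriodic A → ∃ κ > 0, PE A κ

/-- Item Near. -/
def Near : Prop :=
  ∀ (M : Type u) (B : Type v) [MetricSpace M] [CompactSpace M] [MetricSpace B] (π : M → B)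
    (A : B → B) (κ : ℝ), Continuous π → 0 < κ → PE A κ →
    ∀ ε > 0, ∃ ε₁ > 0, ∀ f F G : M → M, Continuous f → (∀ y, π (F y) = A (π y)) →
      (∀ y, π (G y) = A (π y)) → ∀ (h : Omega f ≃ₜ Omega F) (k : Omega f ≃ₜ Omega G),
      Conj f F h → Conj f G k → (∀ x, dist (h x : M) (k x) < ε₁) → Follows π F G ε

/-- Item Spread. -/
def Spread : Prop :=
  ∀ (M : Type u) (B : Type v) [MetricSpace M] [CompactSpace M] [MetricSpace B] (π : M → B)
    (F : ℝ → M → M) (a b ε : ℝ) (S : Set ℝ), Continuous π →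
    Continuous (fun p : ℝ × M => F p.1 p.2) → S ⊆ Ioo a b → Ioo a b ⊆ closure S → 0 < ε →
    (∀ s ∈ S, ∀ s' ∈ S, Follows π (F s) (F s') ε) → (∀ t ∈ Ioo a b, ContAt π F t) →
    ∀ s ∈ Ioo a b, ∀ t ∈ Ioo a b, Follows π (F s) (F t) (2 * ε)

/-- Item Generic. -/
def Generic : Prop :=
  ∀ (M : Type u) (B : Type v) [MetricSpace M] [CompactSpace M] [MetricSpace B] (π : M → B)
    (A : B → B) (F : ℝ → M → M) (κ τ : ℝ), Continuous π → 0 < κ → PE A κ →
    Continuous (fun p : ℝ × M => F p.1 p.2) → (∀ t y, π (F t y) = A (π y)) → 0 < τ →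
    (∀ t, |t| < τ → OmegaConjugate (F 0) (F t)) → (∀ t, |t| < τ → ContAt π F t) →
    ∃ t₀, |t₀| < τ ∧ StableAt π F t₀

/-- Item Shadow. The hypotheses `hclose`, `hrot`, `hnear` are landed theorems. -/
def Shadow : Prop :=
  ∀ (M : Type u) (B : Type v) [MetricSpace M] [CompactSpace M] [MetricSpace B] [MulAction Circle M]
    (π : M → B) (A : B → B) (F : M → M) (ρ : ℝ), Continuous π → Continuous F →
    (∀ y, π (F y) = A (π y)) → (∀ y y' : M, π y = π y' ↔ ∃ z : Circle, z • y = y') →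
    -- closing of a chain by a rotation
    (∀ (n : ℕ) (ε : ℝ), 0 ≤ ε → ∀ (e : ℕ → M) (c : ℕ → ℝ), (∀ j < n, |c j| ≤ ε) →
      (∀ j < n, F (e j) = Circle.exp (c j) • e (j + 1)) → e n = e 0 →
      ∃ s : ℝ, |s| ≤ ε ∧ (fun y => Circle.exp s • F y)^[n] (e 0) = e 0) →
    -- points of a circle which are close are related by a small rotation
    (∀ ε > 0, ∃ δ > 0, ∀ (z : Circle) (y : M), dist (z • y) y < δ →
      ∃ c : ℝ, |c| ≤ ε ∧ Circle.exp c = z) →
    -- fibres over close points are close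
    (∀ ε > 0, ∃ δ > 0, ∀ (y : M) (b : B), dist (π y) b < δ → ∃ y' : M, π y' = b ∧ dist y y' < ε) →
    PeriodicShadowing A → 0 < ρ →
    (∀ y ∈ periodicPts F, ∀ y' ∈ periodicPts F, π y = π y' → y ≠ y' → ρ ≤ dist y y') →
    (∀ ε > 0, ∃ η > 0, ∀ s, |s| < η → Follows π (fun y => Circle.exp s • F y) F ε) →
    PeriodicShadowing F

/-- Item PerE. -/
def PerE : Prop :=
  ∀ (M : Type u) (B : Type v) [MetricSpace M] [CompactSpace M] [MetricSpace B]
    (π : M → B) (A : B → B) (F : M → M) (κ ρ : ℝ), Continuous π → (∀ y, π (F y) = A (π y)) →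
    0 < κ → PE A κ → 0 < ρ →
    (∀ y ∈ periodicPts F, ∀ y' ∈ periodicPts F, π y = π y' → y ≠ y' → ρ ≤ dist y y') →
    ∃ e > 0, PE F e

/-- Item ChTr. -/
def ChTr : Prop :=
  ∀ (M : Type u) [MetricSpace M] (F : M → M) (δ : ℝ) (x y z : M), Chain F δ x y → Chain F δ y z →
    Chain F δ x z

/-- Item Rev. -/
def Rev : Prop :=
  ∀ (M : Type u) [MetricSpace M] [CompactSpace M] (F : M → M), Continuous F →
    ∀ δ > 0, ∃ δ' > 0, ∀ x y : M, x ∈ closure (periodicPts F) → dist (F x) y < δ' →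
      Chain F δ y x

/-- Item FinSh. -/
def FinSh : Prop :=
  ∀ (M : Type u) [MetricSpace M] [CompactSpace M] (F : M → M), Continuous F →
    PeriodicShadowing F → ∀ ε > 0, ∃ δ > 0, ∀ (N : ℕ) (x : ℕ → M),
      (∀ j ≤ N, x j ∈ closure (periodicPts F)) → (∀ j < N, dist (F (x j)) (x (j + 1)) < δ) →
      ∃ p ∈ periodicPts F, ∀ j ≤ N, dist (F^[j] p) (x j) < ε

/-- Item LimSh. -/
def LimSh : Prop :=
  ∀ (M : Type u) [MetricSpace M] [CompactSpace M] (F : M → M), Continuous F →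
    (∀ ε > 0, ∃ δ > 0, ∀ (N : ℕ) (x : ℕ → M),
      (∀ j ≤ N, x j ∈ closure (periodicPts F)) → (∀ j < N, dist (F (x j)) (x (j + 1)) < δ) →
      ∃ p ∈ periodicPts F, ∀ j ≤ N, dist (F^[j] p) (x j) < ε) →
    ShadowingOn F (closure (periodicPts F))

/-- Item ExpA. -/
def ExpA : Prop :=
  ∀ (M : Type u) [MetricSpace M] [CompactSpace M] (F : M → M) (e : ℝ), Continuous F →
    PeriodicShadowing F → 0 < e → PE F e → ∀ x y : ℤ → M, (∀ j, x (j + 1) = F (x j)) →
    (∀ j, y (j + 1) = F (y j)) → (∀ j, dist (x j) (y j) ≤ e / 2) →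
    ∀ T : Set ℤ, T.Infinite → ∀ δ > 0, ∃ i ∈ T, dist (x i) (y i) < δ

/-- Item ExpB. -/
def ExpB : Prop :=
  ∀ (M : Type u) [MetricSpace M] [CompactSpace M] (F : M → M) (e : ℝ), Continuous F →
    PeriodicShadowing F → 0 < e → PE F e → ExpansiveOn F (closure (periodicPts F))

/-- Item TrE. -/
def TrE : Prop :=
  ∀ (M : Type u) [MetricSpace M] [CompactSpace M] (f g : M → M), Continuous f → Continuous g →
    OmegaConjugate f g → ExpansiveOn g (Omega g) → ExpansiveOn f (Omega f)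

/-- Item TrS. -/
def TrS : Prop :=
  ∀ (M : Type u) [MetricSpace M] [CompactSpace M] (f g : M → M), Continuous f → Continuous g →
    OmegaConjugate f g → ShadowingOn g (Omega g) → ShadowingOn f (Omega f)

/-- Item NoCyc. -/
def NoCyc : Prop :=
  ∀ (M : Type u) [MetricSpace M] [CompactSpace M] (F F' : M → M), Continuous F → Continuous F' →
    (∀ x, F' (F x) = x) → (∀ x, F (F' x) = x) → PeriodicShadowing F →
    Omega F = closure (periodicPts F) → NoCycleProperty F F'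

end Pool.Agent.OmegaStability.TH
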