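import Pool.Agent.Work.MP_814647_an.TH.Stmts

set_option autoImplicit false

open Set Filter Topology Function

noncomputable section

namespace Pool.Agent.OmegaStability.TH

universe u v

namespace BaseEqAux

/-- the periodic orbit indexed by the integers -/
def orb {B : Type v} (A : B → B) (n : ℕ) (p : B) (j : ℤ) : B := A^[(j % n).toNat] p

theorem orb_succ {B : Type v} (A : B → B) (n : ℕ) (p : B) (hn : 0 < n) (hp : A^[n] p = p)
    (j : ℤ) : orb A n p (j + 1) = A (orb A n p j) := by
  have hn' : (0 : ℤ) < n := by exact_mod_cast hn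
  have h0 : 0 ≤ j % n := Int.emod_nonneg _ hn'.ne'
  have h1 : j % n < n := Int.emod_lt_of_pos _ hn'
  have e1 : (j + 1) % n = (j % n + 1) % n := by rw [Int.emod_add_emod]
  unfold orb
  rw [← Function.iterate_succ_apply' A]
  by_cases h : j % n + 1 < n
  · rw [e1, Int.emod_eq_of_lt (by omega) h]
    congr 1
    have : (j % n + 1).toNat = (j % n).toNat + 1 := by omega
    rw [this]
  · have h2 : j % n + 1 = n := by omega
    rw [e1, h2, Int.emod_self]
    have : (j % (n : ℤ)).toNat.succ = n := by omega
    rw [this, hp]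
    rfl

theorem orb_mem {B : Type v} (A : B → B) (n : ℕ) (p : B) (hn : 0 < n) (hp : A^[n] p = p)
    (j : ℤ) : orb A n p j ∈ periodicPts A := by
  refine ⟨n, hn, ?_⟩
  show A^[n] (orb A n p j) = orb A n p j
  unfold orb
  rw [← Function.iterate_add_apply, Nat.add_comm, Function.iterate_add_apply, hp]

end BaseEqAux

open BaseEqAux in
theorem prf_BaseEq : BaseEq.{v} := by
  intro B _ A hexp
  obtain ⟨κ, hκ, h⟩ := hexp
  refine ⟨κ, hκ, fun n p q hn hp hq hd => ?_⟩
  have hn' : (0 : ℤ) < n := by exact_mod_cast hn
  have key := h (orb A n p) (orb A n q) (fun j => subset_closure (orb_mem A n p hn hp j))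
    (fun j => subset_closure (orb_mem A n q hn hq j)) (orb_succ A n p hn hp)
    (orb_succ A n q hn hq) (fun j => by
      have h0 : 0 ≤ j % n := Int.emod_nonneg _ hn'.ne'
      have h1 : j % n < n := Int.emod_lt_of_pos _ hn'
      exact hd _ (by omega))
  simpa [orb] using key

end Pool.Agent.OmegaStability.TH
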