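import Pool.Agent.Work.MP_814647_an.TH.Stmts

set_option autoImplicit false

open Set Filter Topology Function

noncomputable section

namespace Pool.Agent.OmegaStability.TH

universe u v

theorem prf_ChTr : ChTr.{u} := by
  rintro M _ F δ x y z ⟨n₁, c₁, hn₁, h10, h1n, h1⟩ ⟨n₂, c₂, hn₂, h20, h2n, h2⟩
  refine ⟨n₁ + n₂, fun j => if j < n₁ then c₁ j else c₂ (j - n₁), by omega, ?_, ?_, ?_⟩
  · simp only [hn₁, if_true, h10]
  · have h3 : ¬ n₁ + n₂ < n₁ := by omega
    simp only [h3, if_false, Nat.add_sub_cancel_left, h2n]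
  · intro j hj
    by_cases h3 : j < n₁
    · have h4 := h1 j h3
      by_cases h5 : j + 1 < n₁
      · simp only [h3, h5, if_true]
        exact h4
      · have h6 : j + 1 = n₁ := by omega
        simp only [h3, h5, if_true, if_false]
        rw [h6, Nat.sub_self, h20, ← h1n, ← h6]
        exact h4
    · have h5 : ¬ j + 1 < n₁ := by omega
      have h4 := h2 (j - n₁) (by omega)
      have h6 : j + 1 - n₁ = j - n₁ + 1 := by omega
      simp only [h3, h5, if_false, h6]
      exact h4

theorem prf_Rev : Rev.{u} := by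
  intro M _ _ F hF δ hδ
  have huc := CompactSpace.uniformContinuous_of_continuous hF
  obtain ⟨b, hb, hbF⟩ := Metric.uniformContinuous_iff.1 huc (δ / 2) (by positivity)
  obtain ⟨a, ha, haF⟩ := Metric.uniformContinuous_iff.1 huc (b / 2) (by positivity)
  refine ⟨b / 2, by positivity, fun x y hx hxy => ?_⟩
  obtain ⟨w, ⟨P, hP, hw⟩, hxw⟩ := Metric.mem_closure_iff.1 hx (min a (δ / 2)) (by positivity)
  have hw' : F^[P] w = w := hw
  have hxw1 : dist x w < a := hxw.trans_le (min_le_left _ _)
  have hxw2 : dist x w < δ / 2 := hxw.trans_le (min_le_right _ _)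
  have hQ : F^[P + P] w = w := by rw [iterate_add_apply, hw', hw']
  set n := P + P - 1 with hn
  have hn0 : 0 < n := by omega
  set c : ℕ → M := fun j => if j = 0 then y else if j = n then x else F^[j + 1] w with hc
  have hc0 : c 0 = y := by simp only [hc, if_true]
  have hcn : c n = x := by
    have h1 : ¬ n = 0 := by omega
    simp only [hc, if_neg h1, if_true]
  have h1 : ∀ j < n, dist (F (c j)) (F^[j + 2] w) < δ / 2 := by
    intro j hj
    rcases Nat.eq_zero_or_pos j with rfl | hj0
    · rw [hc0]
      show dist (F y) (F^[0 + 2] w) < δ / 2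
      have h2 : F^[0 + 2] w = F (F w) := rfl
      rw [h2]
      apply hbF
      calc dist y (F w) ≤ dist (F x) y + dist (F x) (F w) := dist_triangle_left _ _ _
        _ < b / 2 + b / 2 := add_lt_add hxy (haF hxw1)
        _ = b := by ring
    · have h2 : c j = F^[j + 1] w := by
        simp only [hc]
        rw [if_neg (by omega), if_neg (by omega)]
      rw [h2, ← iterate_succ_apply' F (j + 1) w, dist_self]
      positivity
  have h2 : ∀ j < n, dist (F^[j + 2] w) (c (j + 1)) < δ / 2 := by
    intro j hj
    by_cases hj1 : j + 1 = n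
    · rw [hj1, hcn]
      have h3 : j + 2 = P + P := by omega
      rw [h3, hQ, dist_comm]
      exact hxw2
    · have h3 : c (j + 1) = F^[j + 1 + 1] w := by
        simp only [hc]
        rw [if_neg (by omega), if_neg (by omega)]
      rw [h3, dist_self]
      positivity
  refine ⟨n, c, hn0, hc0, hcn, fun j hj => ?_⟩
  calc dist (F (c j)) (c (j + 1)) ≤ dist (F (c j)) (F^[j + 2] w) + dist (F^[j + 2] w) (c (j + 1)) :=
        dist_triangle _ _ _
    _ < δ / 2 + δ / 2 := add_lt_add (h1 j hj) (h2 j hj)
    _ = δ := by ring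

end Pool.Agent.OmegaStability.TH
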