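import Pool.Agent.Work.MP_814647_an.TH.Stmts

set_option autoImplicit false

open Set Filter Topology Function

noncomputable section

namespace Pool.Agent.OmegaStability.TH

universe u v

namespace ExpAAux

/-- two different indices with close values -/
theorem close_pair {X : Type u} [MetricSpace X] [CompactSpace X] (z : ℤ → X) (T : Set ℤ)
    (hT : T.Infinite) (d : ℝ) (hd : 0 < d) :
    ∃ i ∈ T, ∃ l ∈ T, i < l ∧ dist (z i) (z l) < d := by
  let w : ℕ ↪ T := Set.Infinite.natEmbedding T hT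
  obtain ⟨a, -, φ, hφ, hlim⟩ := (isCompact_univ (X := X)).tendsto_subseq
    (x := fun k => z (w k : ℤ)) (fun _ => mem_univ _)
  have hC := hlim.cauchySeq
  rw [Metric.cauchySeq_iff] at hC
  obtain ⟨N, hN⟩ := hC d hd
  have hne : ((w (φ N) : T) : ℤ) ≠ ((w (φ (N + 1)) : T) : ℤ) := by
    intro h
    have h1 : w (φ N) = w (φ (N + 1)) := Subtype.ext h
    have h2 : φ N = φ (N + 1) := w.injective h1
    have h3 : φ N < φ (N + 1) := hφ (Nat.lt_succ_self N)
    omega
  have hdist := hN N le_rfl (N + 1) (Nat.le_succ N)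
  simp only [Function.comp] at hdist
  rcases lt_or_gt_of_ne hne with h | h
  · exact ⟨_, (w (φ N)).2, _, (w (φ (N + 1))).2, h, hdist⟩
  · exact ⟨_, (w (φ (N + 1))).2, _, (w (φ N)).2, h, by rw [dist_comm]; exact hdist⟩

/-- shadowing of a piece of an orbit which nearly closes up -/
theorem close_orbit {M : Type u} [MetricSpace M] (F : M → M) (d e : ℝ) (hd0 : 0 < d)
    (hd : ∀ (n : ℕ) (x : ℕ → M), 0 < n → x n = x 0 →
      (∀ j < n, dist (F (x j)) (x (j + 1)) < d) →
      ∃ p : M, F^[n] p = p ∧ ∀ j ≤ n, dist (F^[j] p) (x j) < e)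
    (x : ℤ → M) (hx : ∀ j, x (j + 1) = F (x j)) (i : ℤ) (n : ℕ) (hn : 0 < n)
    (hc : dist (x (i + n)) (x i) < d) :
    ∃ p : M, F^[n] p = p ∧ ∀ j < n, dist (F^[j] p) (x (i + j)) < e := by
  obtain ⟨p, hp, hps⟩ := hd n (fun j => if j < n then x (i + j) else x i) hn (by simp [hn])
    (fun j hj => by
      simp only [hj, if_true]
      have e1 : F (x (i + j)) = x (i + j + 1) := (hx _).symm
      rw [e1]
      by_cases h : j + 1 < n
      · simp only [h, if_true]
        push_cast
        rw [← add_assoc, dist_self]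
        exact hd0
      · simp only [h, if_false]
        have : j + 1 = n := by omega
        have e2 : i + (j : ℤ) + 1 = i + (n : ℤ) := by
          rw [← this]; push_cast; ring
        rw [e2]; exact hc)
  refine ⟨p, hp, fun j hj => ?_⟩
  have := hps j hj.le
  simpa [hj] using this

end ExpAAux

theorem prf_ExpA : ExpA.{u} := by
  intro M _ _ F e hF hPS he hPE x y hx hy hxy T hT δ hδ
  set e1 : ℝ := min (e / 4) (δ / 4) with he1
  have he1pos : 0 < e1 := lt_min (by linarith) (by linarith)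
  have h1 : e1 ≤ e / 4 := min_le_left _ _
  have h2 : e1 ≤ δ / 4 := min_le_right _ _
  obtain ⟨d, hd0, hd⟩ := hPS e1 he1pos
  obtain ⟨i, hi, l, -, hil, hdist⟩ := ExpAAux.close_pair (X := M × M) (fun k => (x k, y k)) T hT d
    hd0
  have hd1 : dist (x i) (x l) < d := lt_of_le_of_lt (le_max_left _ _) hdist
  have hd2 : dist (y i) (y l) < d := lt_of_le_of_lt (le_max_right _ _) hdist
  obtain ⟨n, hn⟩ : ∃ n : ℕ, l = i + n := ⟨(l - i).toNat, by
    rw [Int.toNat_of_nonneg (by omega)]; ring⟩
  have hnpos : 0 < n := by omega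
  obtain ⟨p, hp, hps⟩ := ExpAAux.close_orbit F d e1 hd0 hd x hx i n hnpos
    (by rw [dist_comm, ← hn]; exact hd1)
  obtain ⟨q, hq, hqs⟩ := ExpAAux.close_orbit F d e1 hd0 hd y hy i n hnpos
    (by rw [dist_comm, ← hn]; exact hd2)
  have hpq : p = q := by
    apply hPE n p q hnpos hp hq
    intro j hj
    have a1 := hps j hj
    have a2 := hqs j hj
    have a3 := hxy (i + j)
    rw [dist_comm] at a2
    calc dist (F^[j] p) (F^[j] q) ≤ dist (F^[j] p) (x (i + j)) + dist (x (i + j)) (F^[j] q) :=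
          dist_triangle _ _ _
      _ ≤ dist (F^[j] p) (x (i + j)) + (dist (x (i + j)) (y (i + j)) +
          dist (y (i + j)) (F^[j] q)) := by gcongr; exact dist_triangle _ _ _
      _ ≤ e := by linarith
  refine ⟨i, hi, ?_⟩
  have a1 := hps 0 hnpos
  have a2 := hqs 0 hnpos
  simp only [Function.iterate_zero, id_eq, Nat.cast_zero, add_zero] at a1 a2
  rw [hpq] at a1
  calc dist (x i) (y i) ≤ dist (x i) q + dist q (y i) := dist_triangle _ _ _
    _ < δ := by rw [dist_comm (x i) q]; linarith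

end Pool.Agent.OmegaStability.TH
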