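import Pool.Agent.Work.MP_814647_an.TH.Stmts

/-!
# Item ExpB
-/

set_option autoImplicit false

open Set Filter Topology Function

noncomputable section

namespace Pool.Agent.OmegaStability.TH

universe u v

namespace ExpBAux

/-- the closed pseudo-orbits -/
theorem key {M : Type u} [MetricSpace M] (F : M → M) (δ : ℝ) (hδ : 0 < δ) (x : ℤ → M)
    (hx : ∀ j, x (j + 1) = F (x j)) (a : ℤ) (L n : ℕ) (hL : 0 < L) (c : ℕ → M) (u : M)
    (w : M) (hn : 0 < n) (hc0 : c 0 = u) (hcn : c n = w)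
    (hc : ∀ j < n, dist (F (c j)) (c (j + 1)) < δ / 2)
    (hu : dist (x (a + L)) u < δ / 2) (hw : dist (x a) w < δ / 2) :
    ∃ X : ℕ → M, (∀ j < L, X j = x (a + j)) ∧ (∀ j, L ≤ j → j < L + n → X j = c (j - L)) ∧
      X (L + n) = X 0 ∧ ∀ j < L + n, dist (F (X j)) (X (j + 1)) < δ := by
  refine ⟨fun j => if j < L then x (a + j) else if j < L + n then c (j - L) else x a, ?_, ?_, ?_,
    ?_⟩
  · intro j hj
    simp only [if_pos hj]
  · intro j hj hj'
    simp only [if_neg (not_lt.mpr hj), if_pos hj']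
  · have h1 : ¬ (L + n < L) := by omega
    have h2 : ¬ (L + n < L + n) := by omega
    simp only [if_neg h1, if_neg h2, if_pos hL]
    simp
  · intro j hj
    simp only
    by_cases h1 : j + 1 < L
    · have h2 : j < L := by omega
      rw [if_pos h2, if_pos h1, ← hx]
      have : a + ((j + 1 : ℕ) : ℤ) = a + (j : ℤ) + 1 := by push_cast; ring
      rw [this, dist_self]
      exact hδ
    · by_cases h2 : j < L
      · have h3 : j + 1 = L := by omega
        have h4 : ¬ (j + 1 < L) := h1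
        have h5 : j + 1 < L + n := by omega
        rw [if_pos h2, if_neg h4, if_pos h5, ← hx]
        have h6 : a + (j : ℤ) + 1 = a + (L : ℤ) := by rw [← h3]; push_cast; ring
        have h7 : j + 1 - L = 0 := by omega
        rw [h6, h7, hc0]
        linarith
      · by_cases h5 : j + 1 < L + n
        · rw [if_neg h2, if_pos hj, if_neg h1, if_pos h5]
          have h6 : j + 1 - L = (j - L) + 1 := by omega
          rw [h6]
          have := hc (j - L) (by omega)
          linarith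
        · rw [if_neg h2, if_pos hj, if_neg h1, if_neg h5]
          have h6 : (j - L) + 1 = n := by omega
          have h7 := hc (j - L) (by omega)
          rw [h6, hcn] at h7
          have h8 := dist_triangle (F (c (j - L))) w (x a)
          rw [dist_comm] at hw
          linarith

theorem chain_back (hT : ChTr.{u}) {M : Type u} [MetricSpace M] (F : M → M) (δ : ℝ) (x : ℤ → M)
    (a : ℤ) (h : ∀ j : ℤ, Chain F δ (x (j + 1)) (x j)) (k : ℕ) :
    Chain F δ (x (a + ((k + 1 : ℕ) : ℤ))) (x a) := by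
  induction k with
  | zero =>
    have := h a
    simpa using this
  | succ k ih =>
    have h1 := h (a + ((k + 1 : ℕ) : ℤ))
    have h2 : a + ((k + 1 + 1 : ℕ) : ℤ) = a + ((k + 1 : ℕ) : ℤ) + 1 := by push_cast; ring
    rw [h2]
    exact hT M F δ _ _ _ h1 ih

theorem small (hT : ChTr.{u}) (hR : Rev.{u}) (hE : ExpA.{u}) (M : Type u) [MetricSpace M]
    [CompactSpace M] (F : M → M) (e : ℝ) (hF : Continuous F) (hS : PeriodicShadowing F)
    (he : 0 < e) (hP : PE F e) (x y : ℤ → M) (hxc : ∀ j, x j ∈ closure (periodicPts F))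
    (hx : ∀ j, x (j + 1) = F (x j)) (hy : ∀ j, y (j + 1) = F (y j))
    (hd : ∀ j, dist (x j) (y j) ≤ e / 2) (ε : ℝ) (hε : 0 < ε) (hε' : ε ≤ e / 4) :
    dist (x 0) (y 0) ≤ 2 * ε := by
  obtain ⟨δ, hδ, hsh⟩ := hS ε hε
  obtain ⟨a, ha, hda⟩ := hE M F e hF hS he hP x y hx hy hd (Iic 0) (Set.Iic_infinite 0) (δ / 2)
    (half_pos hδ)
  obtain ⟨b, hb, hdb⟩ := hE M F e hF hS he hP x y hx hy hd (Ici 1) (Set.Ici_infinite 1) (δ / 2)
    (half_pos hδ)
  rw [mem_Iic] at ha
  rw [mem_Ici] at hb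
  obtain ⟨δ', hδ', hrev⟩ := hR M F hF (δ / 2) (half_pos hδ)
  have hstep : ∀ j : ℤ, Chain F (δ / 2) (x (j + 1)) (x j) := by
    intro j
    refine hrev (x j) (x (j + 1)) (hxc j) ?_
    rw [hx, dist_self]
    exact hδ'
  obtain ⟨L, hL⟩ : ∃ L : ℕ, (L : ℤ) = b - a := ⟨(b - a).toNat, by omega⟩
  have hL1 : 1 ≤ L := by omega
  have hbL : a + (L : ℤ) = b := by omega
  have hch : Chain F (δ / 2) (x b) (x a) := by
    have := chain_back hT F (δ / 2) x a hstep (L - 1)
    have h2 : L - 1 + 1 = L := by omega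
    rw [h2, hbL] at this
    exact this
  obtain ⟨n, c, hn, hc0, hcn, hc⟩ := hch
  obtain ⟨X, hX1, hX2, hX3, hX4⟩ := key F δ hδ x hx a L n hL1 c (x b) (x a) hn hc0 hcn hc
    (by rw [hbL, dist_self]; exact half_pos hδ) (by rw [dist_self]; exact half_pos hδ)
  obtain ⟨Y, hY1, hY2, hY3, hY4⟩ := key F δ hδ y hy a L n hL1 c (x b) (x a) hn hc0 hcn hc
    (by rw [hbL, dist_comm]; exact hdb) (by rw [dist_comm]; exact hda)
  obtain ⟨p, hp, hp'⟩ := hsh (L + n) X (by omega) hX3 hX4
  obtain ⟨q, hq, hq'⟩ := hsh (L + n) Y (by omega) hY3 hY4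
  have hXY : ∀ j < L + n, dist (X j) (Y j) ≤ e / 2 := by
    intro j hj
    by_cases h1 : j < L
    · rw [hX1 j h1, hY1 j h1]
      exact hd _
    · rw [hX2 j (by omega) hj, hY2 j (by omega) hj, dist_self]
      linarith
  have hpq : p = q := by
    refine hP (L + n) p q (by omega) hp hq ?_
    intro j hj
    have h1 := hp' j hj.le
    have h2 := hq' j hj.le
    have h3 := hXY j hj
    have h4 := dist_triangle4 (F^[j] p) (X j) (Y j) (F^[j] q)
    rw [dist_comm (F^[j] q) (Y j)] at h2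
    linarith
  obtain ⟨j, hj⟩ : ∃ j : ℕ, (j : ℤ) = -a := ⟨(-a).toNat, by omega⟩
  have hjL : j < L := by omega
  have h1 := hp' j (by omega)
  have h2 := hq' j (by omega)
  rw [hX1 j hjL, show a + (j : ℤ) = 0 by omega] at h1
  rw [hY1 j hjL, show a + (j : ℤ) = 0 by omega, ← hpq] at h2
  have h3 := dist_triangle (x 0) (F^[j] p) (y 0)
  rw [dist_comm (x 0) (F^[j] p)] at h3
  linarith

end ExpBAux

theorem prf_ExpB : ChTr.{u} -> Rev.{u} -> ExpA.{u} -> ExpB.{u} := by
  intro hT hR hE M _ _ F e hF hS he hP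
  refine ⟨e / 2, half_pos he, ?_⟩
  intro x y hxc _ hx hy hd
  by_contra hne
  have hpos : 0 < dist (x 0) (y 0) := dist_pos.mpr hne
  have h1 := ExpBAux.small hT hR hE M F e hF hS he hP x y hxc hx hy hd
    (min (e / 4) (dist (x 0) (y 0) / 4)) (lt_min (by linarith) (by linarith)) (min_le_left _ _)
  have h2 := min_le_right (e / 4) (dist (x 0) (y 0) / 4)
  linarith

end Pool.Agent.OmegaStability.TH
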