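import Pool.Agent.Work.MP_814647_an.TH.Stmts

/-!
# Item FinSh: finite shadowing on the closure of the periodic points
-/

set_option autoImplicit false

open Set Filter Topology Function

noncomputable section

namespace Pool.Agent.OmegaStability.TH

universe u

namespace FinShAux

lemma chain_back {M : Type u} [MetricSpace M] (F : M → M) (d1 d2 : ℝ)
    (hct : ∀ x y z : M, Chain F d1 x y → Chain F d1 y z → Chain F d1 x z)
    (hrev : ∀ x y : M, x ∈ closure (periodicPts F) → dist (F x) y < d2 → Chain F d1 y x)
    (N : ℕ) (x : ℕ → M) (hx : ∀ j ≤ N, x j ∈ closure (periodicPts F))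
    (hj : ∀ j < N, dist (F (x j)) (x (j + 1)) < d2) :
    ∀ j, j + 1 ≤ N → Chain F d1 (x (j + 1)) (x 0) := by
  intro j
  induction j with
  | zero =>
    intro h
    exact hrev _ _ (hx 0 (by omega)) (hj 0 (by omega))
  | succ j ih =>
    intro h
    exact hct _ _ _ (hrev _ _ (hx (j + 1) (by omega)) (hj (j + 1) (by omega))) (ih (by omega))

end FinShAux

open FinShAux in
theorem prf_FinSh : ChTr.{u} → Rev.{u} → FinSh.{u} := by
  intro hct hrev M _ _ F hF hsh ε hε
  obtain ⟨d1, hd1, h1⟩ := hsh ε hε
  obtain ⟨d2, hd2, h2⟩ := hrev M F hF d1 hd1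
  refine ⟨min d1 d2, lt_min hd1 hd2, ?_⟩
  intro N x hx hj
  rcases Nat.eq_zero_or_pos N with h0 | hN
  · subst h0
    obtain ⟨p, hp, hd⟩ := Metric.mem_closure_iff.1 (hx 0 le_rfl) ε hε
    refine ⟨p, hp, ?_⟩
    intro j hj0
    obtain rfl : j = 0 := by omega
    rw [dist_comm] at hd
    simpa using hd
  · have hc := chain_back F d1 d2 (fun x y z => hct M F d1 x y z) h2 N x hx
      (fun j hjN => (hj j hjN).trans_le (min_le_right _ _)) (N - 1) (by omega)
    rw [Nat.sub_add_cancel hN] at hc
    obtain ⟨n, c, hn, hc0, hcn, hcj⟩ := hc
    obtain ⟨p, hp, hd⟩ := h1 (N + n) (fun j => if j < N then x j else c (j - N)) (by omega)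
      (by
        have e1 : ¬ (N + n < N) := by omega
        simp only [e1, if_false, if_pos hN]
        rw [show N + n - N = n by omega, hcn])
      (by
        intro j hjn
        by_cases hjN : j + 1 < N
        · have e1 : j < N := by omega
          simp only [e1, hjN, if_true]
          exact (hj j e1).trans_le (min_le_left _ _)
        · by_cases hjN2 : j < N
          · have e2 : j + 1 = N := by omega
            simp only [hjN, hjN2, if_true, if_false]
            rw [e2, Nat.sub_self, hc0]
            have := (hj j hjN2).trans_le (min_le_left _ _)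
            rwa [e2] at this
          · simp only [hjN, hjN2, if_false]
            have := hcj (j - N) (by omega)
            rwa [show j - N + 1 = j + 1 - N by omega] at this)
    refine ⟨p, ⟨N + n, by omega, hp⟩, ?_⟩
    intro j hjN
    have := hd j (by omega)
    by_cases h : j < N
    · simpa [h] using this
    · obtain rfl : j = N := by omega
      simpa [hc0] using this

end Pool.Agent.OmegaStability.TH
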