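import Pool.Agent.Work.MP_814647_an.TH.Stmts

/-!
# Item Generic: a parameter at which the periodic points are stable
-/

set_option autoImplicit false

open Set Filter Topology Function

noncomputable section

namespace Pool.Agent.OmegaStability.TH

universe u v

namespace GenericAux

theorem isClosed_Omega {M : Type*} [TopologicalSpace M] (f : M → M) : IsClosed (Omega f) := by
  rw [← isOpen_compl_iff, isOpen_iff_mem_nhds]
  intro x hx
  have hx' : ¬ x ∈ Omega f := hx
  unfold Omega at hx'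
  simp only [Set.mem_ofPred_eq, not_forall] at hx'
  obtain ⟨U, hU, hno⟩ := hx'
  rw [mem_nhds_iff] at hU
  obtain ⟨V, hVU, hVo, hxV⟩ := hU
  filter_upwards [hVo.mem_nhds hxV] with y hy hyΩ
  apply hno
  obtain ⟨n, hn, hne⟩ := hyΩ V (hVo.mem_nhds hy)
  refine ⟨n, hn, hne.mono ?_⟩
  exact inter_subset_inter (image_mono hVU) hVU

theorem follows_mono {M : Type u} {B : Type v} [MetricSpace M] {π : M → B} {F G : M → M}
    {ε ε' : ℝ} (h : Follows π F G ε) (hε : ε ≤ ε') : Follows π F G ε' := by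
  intro n z hn hz
  obtain ⟨z', h1, h2, h3⟩ := h n z hn hz
  exact ⟨z', h1, h2, h3.trans hε⟩

/-- The good parameters of order `m`. -/
def Good {M : Type u} {B : Type v} [MetricSpace M] (π : M → B) (F : ℝ → M → M) (τ δ : ℝ) :
    Set ℝ :=
  {t | |t| < τ ∧ ∃ η > 0, ∀ s s' : ℝ, |s - t| < η → |s' - t| < η → Follows π (F s) (F s') δ}

theorem isOpen_Good {M : Type u} {B : Type v} [MetricSpace M] (π : M → B) (F : ℝ → M → M)
    (τ δ : ℝ) : IsOpen (Good π F τ δ) := by
  rw [Metric.isOpen_iff]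
  rintro t ⟨ht, η, hη, h⟩
  refine ⟨min (η / 2) (τ - |t|), lt_min (by linarith) (by linarith), ?_⟩
  intro t' ht'
  rw [Metric.mem_ball, Real.dist_eq] at ht'
  have h1 : |t' - t| < η / 2 := lt_of_lt_of_le ht' (min_le_left _ _)
  have h2 : |t' - t| < τ - |t| := lt_of_lt_of_le ht' (min_le_right _ _)
  refine ⟨?_, η / 2, by linarith, ?_⟩
  · have h3 : |t'| ≤ |t' - t| + |t| := by
      have := abs_add_le (t' - t) t
      simpa using this
    linarith
  · intro s s' hs hs'
    refine h s s' ?_ ?_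
    · have := abs_sub_le s t' t
      linarith
    · have := abs_sub_le s' t' t
      linarith

end GenericAux

open GenericAux

theorem prf_Generic : Baire.{u} → Near.{u, v} → Spread.{u, v} → Generic.{u, v} := by
  intro hB hN hS M B _ _ _ π A F κ τ hπ hκ hPE hF hsemi hτ hconj hcont
  have hf : Continuous (F 0) := hF.comp (continuous_const.prodMk continuous_id)
  have hcl : IsClosed (Omega (F 0)) := isClosed_Omega _
  have : CompactSpace (Omega (F 0)) := isCompact_iff_compactSpace.1 hcl.isCompact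
  choose h hh using fun (t : {t : ℝ // |t| < τ}) => hconj t.1 t.2
  classical
  let φ : ℝ → C(Omega (F 0), M) := fun t =>
    if ht : |t| < τ then ⟨fun x => (h ⟨t, ht⟩ x : M), by fun_prop⟩
    else ⟨fun x => (x : M), continuous_subtype_val⟩
  have hφ : ∀ (t : ℝ) (ht : |t| < τ) (x : Omega (F 0)), φ t x = (h ⟨t, ht⟩ x : M) := by
    intro t ht x
    simp only [φ, dif_pos ht]
    rfl
  -- the good set is dense
  have hdense : ∀ m : ℕ, ∀ a b : ℝ, a < b → -τ ≤ a → b ≤ τ →
      ∃ t ∈ Ioo a b, t ∈ Good π F τ (1 / ((m : ℝ) + 1)) := by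
    intro m a b hab ha hb
    have hmpos : (0 : ℝ) < (m : ℝ) + 1 := by positivity
    have hεpos : (0 : ℝ) < 1 / (2 * ((m : ℝ) + 1)) := by positivity
    obtain ⟨ε₁, hε₁, hnear⟩ := hN M B π A κ hπ hκ hPE (1 / (2 * ((m : ℝ) + 1))) hεpos
    obtain ⟨a', b', haa', hab', hbb', S, hSsub, hSdense, hSdist⟩ :=
      hB C(Omega (F 0), M) φ a b ε₁ hab hε₁
    have hin : ∀ s ∈ Ioo a' b', |s| < τ := by
      intro s hs
      rw [abs_lt]
      exact ⟨by linarith [hs.1], by linarith [hs.2]⟩
    have hfol : ∀ s ∈ S, ∀ s' ∈ S, Follows π (F s) (F s') (1 / (2 * ((m : ℝ) + 1))) := by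
      intro s hs s' hs'
      refine hnear (F 0) (F s) (F s') hf (hsemi s) (hsemi s')
        (h ⟨s, hin s (hSsub hs)⟩) (h ⟨s', hin s' (hSsub hs')⟩) ?_ ?_ ?_
      · exact hh ⟨s, hin s (hSsub hs)⟩
      · exact hh ⟨s', hin s' (hSsub hs')⟩
      · intro x
        have h1 : dist (φ s x) (φ s' x) ≤ dist (φ s) (φ s') := ContinuousMap.dist_apply_le_dist x
        rw [hφ s (hin s (hSsub hs)) x, hφ s' (hin s' (hSsub hs')) x] at h1
        exact lt_of_le_of_lt h1 (hSdist s hs s' hs')
    have hspread := hS M B π F a' b' (1 / (2 * ((m : ℝ) + 1))) S hπ hF hSsub hSdense hεpos hfol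
      (fun t ht => hcont t (hin t ht))
    refine ⟨(a' + b') / 2, ⟨by linarith, by linarith⟩, hin _ ⟨by linarith, by linarith⟩,
      (b' - a') / 2, by linarith, ?_⟩
    intro s s' hs hs'
    rw [abs_lt] at hs hs'
    have h2 := hspread s ⟨by linarith [hs.1], by linarith [hs.2]⟩ s'
      ⟨by linarith [hs'.1], by linarith [hs'.2]⟩
    have h3 : 2 * (1 / (2 * ((m : ℝ) + 1))) = 1 / ((m : ℝ) + 1) := by
      field_simp
    rw [h3] at h2
    exact h2
  -- Baire
  have hopenfar : IsOpen {t : ℝ | τ < |t|} := isOpen_lt continuous_const continuous_abs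
  let U : ℕ → Set ℝ := fun m => Good π F τ (1 / ((m : ℝ) + 1)) ∪ {t : ℝ | τ < |t|}
  have hUo : ∀ m, IsOpen (U m) := fun m => (isOpen_Good _ _ _ _).union hopenfar
  have hUd : ∀ m, Dense (U m) := by
    intro m
    rw [Metric.dense_iff]
    intro x r hr
    rcases lt_or_ge |x| τ with hx | hx
    · rw [abs_lt] at hx
      obtain ⟨t, ht, htG⟩ := hdense m (max (-τ) (x - r)) (min τ (x + r))
        (max_lt (lt_min (by linarith) (by linarith)) (lt_min (by linarith) (by linarith)))
        (le_max_left _ _) (min_le_left _ _)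
      refine ⟨t, ?_, Or.inl htG⟩
      rw [Metric.mem_ball, Real.dist_eq, abs_lt]
      have h1 := le_max_right (-τ) (x - r)
      have h2 := min_le_right τ (x + r)
      exact ⟨by linarith [ht.1], by linarith [ht.2]⟩
    · rcases le_or_gt 0 x with h0 | h0
      · refine ⟨x + r / 2, ?_, Or.inr ?_⟩
        · rw [Metric.mem_ball, Real.dist_eq, abs_lt]
          exact ⟨by linarith, by linarith⟩
        · show τ < |x + r / 2|
          rw [abs_of_nonneg h0] at hx
          rw [abs_of_nonneg (by linarith)]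
          linarith
      · refine ⟨x - r / 2, ?_, Or.inr ?_⟩
        · rw [Metric.mem_ball, Real.dist_eq, abs_lt]
          exact ⟨by linarith, by linarith⟩
        · show τ < |x - r / 2|
          rw [abs_of_neg h0] at hx
          rw [abs_of_neg (by linarith)]
          linarith
  have hdI : Dense (⋂ m, U m) := dense_iInter_of_isOpen hUo hUd
  obtain ⟨t₀, ht₀U, ht₀⟩ := hdI.exists_mem_open (isOpen_Ioo (a := -τ) (b := τ))
    ⟨0, ⟨by linarith, hτ⟩⟩
  have habs : |t₀| < τ := abs_lt.2 ⟨ht₀.1, ht₀.2⟩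
  refine ⟨t₀, habs, ?_⟩
  intro ε hε
  obtain ⟨m, hm⟩ := exists_nat_one_div_lt hε
  have hm2 : t₀ ∈ U m := by
    rw [mem_iInter] at ht₀U
    exact ht₀U m
  rcases hm2 with ⟨_, η, hη, hG⟩ | hfar
  · refine ⟨η, hη, fun s hs => ?_⟩
    exact follows_mono (hG s t₀ hs (by simpa using hη)) hm.le
  · have hfar' : τ < |t₀| := hfar
    exact absurd habs (not_lt.2 hfar'.le)

end Pool.Agent.OmegaStability.TH
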