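import Pool.Agent.Work.MP_814647_an.TH.Stmts

/-!
# Item NoCyc: periodic shadowing on the nonwandering set excludes cycles of pieces
-/

set_option autoImplicit false

open Set Filter Topology Function

noncomputable section

namespace Pool.Agent.OmegaStability.TH

universe u v

namespace NoCycAux

variable {M : Type u} [MetricSpace M]

theorem chain_one {F : M → M} {δ : ℝ} {x y : M} (h : dist (F x) y < δ) : Chain F δ x y := by
  refine ⟨1, fun j => if j = 0 then x else y, one_pos, by simp, by simp, ?_⟩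
  intro j hj
  have : j = 0 := by omega
  subst this
  simpa using h

theorem chain_orbit (F : M → M) {δ : ℝ} (hδ : 0 < δ) (x : M) {n : ℕ} (hn : 0 < n) :
    Chain F δ x (F^[n] x) := by
  refine ⟨n, fun j => F^[j] x, hn, rfl, rfl, ?_⟩
  intro j _
  show dist (F (F^[j] x)) (F^[j + 1] x) < δ
  rw [Function.iterate_succ_apply', dist_self]
  exact hδ

theorem chain_end {F : M → M} {d1 d2 : ℝ} {x y b : M} (h : Chain F d1 x y) (hb : dist y b < d2) :
    Chain F (d1 + d2) x b := by
  obtain ⟨n, c, hn, h0, h1, h2⟩ := h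
  have hd2 : 0 < d2 := lt_of_le_of_lt dist_nonneg hb
  refine ⟨n, fun j => if j = n then b else c j, hn, ?_, by simp, ?_⟩
  · show (if 0 = n then b else c 0) = x
    rw [if_neg (by omega), h0]
  · intro j hj
    show dist (F (if j = n then b else c j)) (if j + 1 = n then b else c (j + 1)) < d1 + d2
    rw [if_neg (by omega)]
    have h3 := h2 j hj
    by_cases h4 : j + 1 = n
    · rw [if_pos h4]
      have h5 := dist_triangle (F (c j)) (c (j + 1)) b
      have h6 : c (j + 1) = y := by rw [h4, h1]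
      rw [h6] at h3 h5
      linarith
    · rw [if_neg h4]
      linarith

theorem iter_mem {F : M → M} {S : Set M} (hS : F '' S = S) {x : M} (hx : x ∈ S) (n : ℕ) :
    F^[n] x ∈ S := by
  induction n with
  | zero => exact hx
  | succ n ih =>
    rw [Function.iterate_succ_apply']
    rw [← hS]
    exact ⟨_, ih, rfl⟩

theorem inv_mem {F F' : M → M} (hF : ∀ x, F' (F x) = x) {S : Set M} (hS : F '' S = S) {x : M}
    (hx : x ∈ S) (n : ℕ) : F'^[n] x ∈ S := by
  induction n with
  | zero => exact hx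
  | succ n ih =>
    rw [Function.iterate_succ_apply']
    rw [← hS] at ih
    obtain ⟨s, hs, h⟩ := ih
    rw [← h, hF]
    exact hs

/-- chains inside a piece -/
theorem chain_in [CompactSpace M] (h1 : ChTr.{u}) (h2 : Rev.{u}) {F : M → M} (hF : Continuous F)
    (hO : Omega F = closure (periodicPts F)) {S : Set M} (hS : IsPiece F S) {a b : M} (ha : a ∈ S)
    (hb : b ∈ S) {δ : ℝ} (hδ : 0 < δ) : Chain F δ a b := by
  obtain ⟨s1, s2, s3, s4, z, hz, hz2⟩ := hS
  have key : ∀ d > 0, ∀ m : ℕ, Chain F d (F^[m] z) z := by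
    intro d hd
    obtain ⟨d', hd', hR⟩ := h2 M F hF d hd
    have hstep : ∀ j : ℕ, Chain F d (F^[j + 1] z) (F^[j] z) := by
      intro j
      apply hR
      · rw [← hO]
        exact s1 (iter_mem s3 hz j)
      · rw [Function.iterate_succ_apply', dist_self]
        exact hd'
    intro m
    induction m with
    | zero =>
      refine h1 M F d z (F^[0 + 1] z) z ?_ (hstep 0)
      exact chain_orbit F hd z (by omega)
    | succ m ih => exact h1 M F d _ _ _ (hstep m) ih
  have hFa : F a ∈ S := by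
    have := iter_mem s3 ha 1
    exact this
  obtain ⟨_, ⟨m, rfl⟩, hm⟩ := Metric.mem_closure_iff.1 (hz2 hFa) δ hδ
  obtain ⟨_, ⟨m', rfl⟩, hm'⟩ := Metric.mem_closure_iff.1 (hz2 hb) (δ / 2) (half_pos hδ)
  have c1 : Chain F δ a z := h1 M F δ _ _ _ (chain_one hm) (key δ hδ m)
  have c2 : Chain F (δ / 2) z (F^[m'] z) := by
    rcases Nat.eq_zero_or_pos m' with h | h
    · rw [h]
      exact key (δ / 2) (half_pos hδ) 0
    · exact chain_orbit F (half_pos hδ) z h
  have c3 : Chain F (δ / 2 + δ / 2) z b := by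
    refine chain_end c2 ?_
    rw [dist_comm]
    exact hm'
  rw [add_halves] at c3
  exact h1 M F δ _ _ _ c1 c3

/-- leaving to the stable set -/
theorem chain_stable {F : M → M} {S : Set M} (hS : F '' S = S) {w : M}
    (hw : w ∈ StableSet F S) {δ : ℝ} (hδ : 0 < δ) : ∃ u ∈ S, Chain F δ w u := by
  obtain ⟨v, hv, ht⟩ := hw
  have h1 : ∀ᶠ n : ℕ in atTop, dist (F^[n] v) (F^[n] w) < δ / 2 :=
    ht.eventually_lt_const (half_pos hδ)
  obtain ⟨N, hN⟩ := (h1.and (eventually_ge_atTop 1)).exists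
  refine ⟨F^[N] v, iter_mem hS hv N, ?_⟩
  have h2 := chain_end (b := F^[N] v) (d2 := δ / 2) (chain_orbit F (half_pos hδ) w hN.2) (by
    rw [dist_comm]; exact hN.1)
  rw [add_halves] at h2
  exact h2

/-- coming from the unstable set -/
theorem chain_unstable [CompactSpace M] (h1 : ChTr.{u}) {F F' : M → M} (hFc : Continuous F)
    (hF : ∀ x, F' (F x) = x) (hF' : ∀ x, F (F' x) = x) {S : Set M} (hS : F '' S = S) {w : M}
    (hw : w ∈ StableSet F' S) {δ : ℝ} (hδ : 0 < δ) : ∃ u ∈ S, Chain F δ u w := by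
  obtain ⟨v, hv, ht⟩ := hw
  have hu : UniformContinuous F := CompactSpace.uniformContinuous_of_continuous hFc
  obtain ⟨d, hd, hd2⟩ := Metric.uniformContinuous_iff.1 hu δ hδ
  have h2 : ∀ᶠ n : ℕ in atTop, dist (F'^[n] v) (F'^[n] w) < d := ht.eventually_lt_const hd
  obtain ⟨N, hN1, hN2⟩ := (h2.and (eventually_ge_atTop 1)).exists
  obtain ⟨m, rfl⟩ : ∃ m, N = m + 1 := ⟨N - 1, by omega⟩
  refine ⟨F'^[m + 1] v, inv_mem hF hS hv (m + 1), ?_⟩
  have h3 : Chain F δ (F'^[m + 1] v) (F'^[m] w) := by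
    apply chain_one
    have h4 := hd2 hN1
    rw [Function.iterate_succ_apply' F' m w, hF'] at h4
    exact h4
  have h5 : F^[m] (F'^[m] w) = w := by
    have hL : Function.LeftInverse F F' := hF'
    exact hL.iterate m w
  rcases Nat.eq_zero_or_pos m with h | h
  · subst h
    exact h3
  · have h6 := chain_orbit F hδ (F'^[m] w) h
    rw [h5] at h6
    exact h1 M F δ _ _ _ h3 h6

/-- pieces which intersect are equal -/
theorem piece_sub {F F' : M → M} (hF : ∀ x, F' (F x) = x) {S S' : Set M} (hS : IsPiece F S)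
    (hS' : IsPiece F S') {s : M} (hs : s ∈ S) (hs' : s ∈ S') : S ⊆ S' := by
  obtain ⟨s1, s2, s3, s4, z, hz, hz2⟩ := hS
  obtain ⟨t1, t2, t3, ⟨U, hU, hU2⟩, t5⟩ := hS'
  have h1 : s ∈ U := by
    rw [hU2] at hs'
    exact hs'.1
  obtain ⟨_, h2, ⟨n, rfl⟩⟩ := mem_closure_iff.1 (hz2 hs) U hU h1
  have h3 : F^[n] z ∈ S' := by
    rw [hU2]
    exact ⟨h2, s1 (iter_mem s3 hz n)⟩
  have h4 : z ∈ S' := by
    clear h2
    induction n with
    | zero => exact h3
    | succ n ih =>
      apply ih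
      rw [← t3, Function.iterate_succ_apply'] at h3
      obtain ⟨s', hs'1, hs'2⟩ := h3
      have h5 : s' = F^[n] z := by
        rw [← hF s', hs'2, hF]
      rw [← h5]
      exact hs'1
  have h6 : closure (range fun n : ℕ => F^[n] z) ⊆ S' := by
    apply closure_minimal _ t2
    rintro _ ⟨n, rfl⟩
    exact iter_mem t3 h4 n
  exact hz2.trans h6

end NoCycAux

open NoCycAux in
theorem prf_NoCyc : ChTr.{u} → Rev.{u} → NoCyc.{u} := by
  intro h1 h2 M _ _ F F' hFc hFc' hF hF' hPS hO k hk S hS hinj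
  by_contra hcon
  push Not at hcon
  haveI : Fact (1 < k) := ⟨hk⟩
  have hne : ∀ i, (S i).Nonempty := fun i => by
    obtain ⟨-, -, -, -, z, hz, -⟩ := hS i
    exact ⟨z, hz⟩
  have hinv : ∀ i, F '' S i = S i := fun i => (hS i).2.2.1
  -- one step
  have hstep : ∀ δ > 0, ∀ i, ∀ a ∈ S i, ∀ b ∈ S (i + 1), Chain F δ a b := by
    intro δ hδ i a ha b hb
    obtain ⟨w, hw1, hw2⟩ := hcon i
    obtain ⟨x, hx, c1⟩ := chain_unstable h1 hFc hF hF' (hinv i) hw2 hδ
    obtain ⟨y, hy, c2⟩ := chain_stable (hinv (i + 1)) hw1 hδ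
    have c0 := chain_in h1 h2 hFc hO (hS i) ha hx hδ
    have c3 := chain_in h1 h2 hFc hO (hS (i + 1)) hy hb hδ
    exact h1 M F δ _ _ _ c0 (h1 M F δ _ _ _ c1 (h1 M F δ _ _ _ c2 c3))
  have hiter : ∀ δ > 0, ∀ j : ℕ, ∀ a ∈ S 1, ∀ b ∈ S (1 + (j : ZMod k)), Chain F δ a b := by
    intro δ hδ j
    induction j with
    | zero =>
      intro a ha b hb
      rw [Nat.cast_zero, add_zero] at hb
      exact chain_in h1 h2 hFc hO (hS 1) ha hb hδ
    | succ j ih =>
      intro a ha b hb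
      obtain ⟨c, hc⟩ := hne (1 + (j : ZMod k))
      rw [Nat.cast_succ, ← add_assoc] at hb
      exact h1 M F δ _ _ _ (ih a ha c hc) (hstep δ hδ _ c hc b hb)
  have h10 : ∀ δ > 0, ∀ a ∈ S 1, ∀ b ∈ S 0, Chain F δ a b := by
    intro δ hδ a ha b hb
    apply hiter δ hδ (k - 1) a ha b
    have h3 : (1 + ((k - 1 : ℕ) : ZMod k)) = 0 := by
      have h4 : ((1 + (k - 1) : ℕ) : ZMod k) = 0 := by
        have h5 : 1 + (k - 1) = k := by omega
        rw [h5]
        exact ZMod.natCast_self k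
      rw [Nat.cast_add, Nat.cast_one] at h4
      exact h4
    rw [h3]
    exact hb
  have h01 : ∀ δ > 0, ∀ a ∈ S 0, ∀ b ∈ S 1, Chain F δ a b := by
    intro δ hδ a ha b hb
    apply hstep δ hδ 0 a ha b
    rw [zero_add]
    exact hb
  have hdisj : ∀ s, s ∈ S 0 → s ∉ S 1 := by
    intro s hs0 hs1
    have h3 : S 0 = S 1 :=
      Subset.antisymm (piece_sub hF (hS 0) (hS 1) hs0 hs1) (piece_sub hF (hS 1) (hS 0) hs1 hs0)
    exact zero_ne_one (hinj h3)
  obtain ⟨a, ha⟩ := hne 0
  obtain ⟨b, hb⟩ := hne 1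
  obtain ⟨-, -, -, ⟨U, hU, hU2⟩, -⟩ := hS 0
  obtain ⟨-, -, -, ⟨V, hV, hV2⟩, -⟩ := hS 1
  have haU : a ∈ U := by rw [hU2] at ha; exact ha.1
  have hbV : b ∈ V := by rw [hV2] at hb; exact hb.1
  obtain ⟨e1, he1, hU3⟩ := Metric.isOpen_iff.1 hU a haU
  obtain ⟨e2, he2, hV3⟩ := Metric.isOpen_iff.1 hV b hbV
  obtain ⟨δ, hδ, hsh⟩ := hPS (min e1 e2) (lt_min he1 he2)
  obtain ⟨n1, c1, hn1, p1, p2, p3⟩ := h01 δ hδ a ha b hb
  obtain ⟨n2, c2, hn2, q1, q2, q3⟩ := h10 δ hδ b hb a ha
  obtain ⟨p, hp, hp2⟩ := hsh (n1 + n2) (fun j => if j < n1 then c1 j else c2 (j - n1)) (by omega)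
    (by
      show (if n1 + n2 < n1 then c1 (n1 + n2) else c2 (n1 + n2 - n1)) =
        if 0 < n1 then c1 0 else c2 (0 - n1)
      rw [if_neg (by omega), if_pos hn1, Nat.add_sub_cancel_left, p1, q2])
    (by
      intro j hj
      show dist (F (if j < n1 then c1 j else c2 (j - n1)))
        (if j + 1 < n1 then c1 (j + 1) else c2 (j + 1 - n1)) < δ
      by_cases hj1 : j < n1
      · rw [if_pos hj1]
        by_cases hj2 : j + 1 < n1
        · rw [if_pos hj2]
          exact p3 j hj1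
        · rw [if_neg hj2]
          have e1 : j + 1 - n1 = 0 := by omega
          have e2 : j + 1 = n1 := by omega
          rw [e1, q1, ← p2, ← e2]
          exact p3 j hj1
      · rw [if_neg hj1, if_neg (by omega)]
        have e1 : j + 1 - n1 = (j - n1) + 1 := by omega
        rw [e1]
        exact q3 (j - n1) (by omega))
  have hpO : ∀ n : ℕ, F^[n] p ∈ Omega F := by
    intro n
    rw [hO]
    apply subset_closure
    refine ⟨n1 + n2, by omega, ?_⟩
    show F^[n1 + n2] (F^[n] p) = F^[n] p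
    rw [← Function.iterate_add_apply, Nat.add_comm, Function.iterate_add_apply, hp]
  have hpS : p ∈ S 0 := by
    rw [hU2]
    refine ⟨hU3 ?_, hpO 0⟩
    have h3 := hp2 0 (by omega)
    simp only [if_pos hn1, Function.iterate_zero, id] at h3
    rw [p1] at h3
    rw [Metric.mem_ball]
    exact lt_of_lt_of_le h3 (min_le_left _ _)
  have hpS1 : F^[n1] p ∈ S 1 := by
    rw [hV2]
    refine ⟨hV3 ?_, hpO n1⟩
    have h3 := hp2 n1 (by omega)
    simp only [lt_irrefl, if_false, Nat.sub_self] at h3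
    rw [q1] at h3
    rw [Metric.mem_ball]
    exact lt_of_lt_of_le h3 (min_le_right _ _)
  exact hdisj _ (iter_mem (hinv 0) hpS n1) hpS1

end Pool.Agent.OmegaStability.TH
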