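import Pool.Agent.Work.MP_814647_an.TH.Stmts

set_option autoImplicit false

open Set Filter Topology Function

noncomputable section

namespace Pool.Agent.OmegaStability.TH

universe u v

theorem prf_PerE : PerE.{u, v} := by
  intro M B _ _ _ π A F κ ρ hπ hF hκ hPE hρ hsep
  have huc : UniformContinuous π := CompactSpace.uniformContinuous_of_continuous hπ
  obtain ⟨d, hd, hd'⟩ := Metric.uniformContinuous_iff.1 huc κ hκ
  refine ⟨min (d / 2) (ρ / 2), lt_min (by linarith) (by linarith), ?_⟩
  intro n p q hn hp hq hdist
  have hit : ∀ (j : ℕ) (y : M), π (F^[j] y) = A^[j] (π y) := by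
    intro j
    induction j with
    | zero => intro y; rfl
    | succ j ih => intro y; rw [iterate_succ_apply, iterate_succ_apply, ih, hF]
  have hpq : π p = π q := by
    refine hPE n (π p) (π q) hn (by rw [← hit, hp]) (by rw [← hit, hq]) ?_
    intro j hj
    rw [← hit, ← hit]
    refine (hd' ?_).le
    have h1 := hdist j hj
    have h2 := min_le_left (d / 2) (ρ / 2)
    linarith
  by_contra hne
  have h1 := hsep p (mk_mem_periodicPts hn hp) q (mk_mem_periodicPts hn hq) hpq hne
  have h2 := hdist 0 hn
  have h3 := min_le_right (d / 2) (ρ / 2)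
  simp only [iterate_zero, id] at h2
  linarith

end Pool.Agent.OmegaStability.TH
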