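import Pool.Agent.Work.MP_814647_an.TH.Stmts

set_option autoImplicit false

open Set Filter Topology Function

noncomputable section

namespace Pool.Agent.OmegaStability.TH

universe u v

theorem prf_Shadow : Shadow.{u, v} := by
  intro M B _ _ _ _ π A F ρ hπ hF hπF hfib hclose hrot hnear hA hρ hsep hFol ε hε
  have hFu : UniformContinuous F := CompactSpace.uniformContinuous_of_continuous hF
  have hπu : UniformContinuous π := CompactSpace.uniformContinuous_of_continuous hπ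
  obtain ⟨δa, hδa, hFa⟩ := Metric.uniformContinuous_iff.1 hFu (ρ / 4) (by positivity)
  -- ε₂
  obtain ⟨ε₂, hε₂, hε₂ε, hε₂ρ, hε₂a⟩ : ∃ ε₂ : ℝ, 0 < ε₂ ∧ ε₂ ≤ ε / 2 ∧ ε₂ ≤ ρ / 16 ∧ ε₂ < δa := by
    refine ⟨min (ε / 2) (min (ρ / 16) (δa / 2)), by positivity, min_le_left _ _,
      (min_le_right _ _).trans (min_le_left _ _), ?_⟩
    exact ((min_le_right _ _).trans (min_le_right _ _)).trans_lt (by linarith)
  obtain ⟨η, hη, hFη⟩ := hFol ε₂ hε₂
  obtain ⟨d₁, hd₁, hd₁r⟩ := hrot (η / 2) (by positivity)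
  obtain ⟨d, hd, hdd₁, hdρ⟩ : ∃ d : ℝ, 0 < d ∧ d ≤ d₁ ∧ d ≤ ρ / 4 :=
    ⟨min d₁ (ρ / 4), by positivity, min_le_left _ _, min_le_right _ _⟩
  obtain ⟨δb, hδb, hFb⟩ := Metric.uniformContinuous_iff.1 hFu (d / 4) (by positivity)
  obtain ⟨a, ha, had, haε, hab⟩ : ∃ a : ℝ, 0 < a ∧ a ≤ d / 8 ∧ a ≤ ε / 4 ∧ a ≤ δb :=
    ⟨min (d / 8) (min (ε / 4) δb), by positivity, min_le_left _ _,
      (min_le_right _ _).trans (min_le_left _ _), (min_le_right _ _).trans (min_le_right _ _)⟩
  obtain ⟨d₃, hd₃, hn3⟩ := hnear a ha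
  obtain ⟨d₄, hd₄, hA4⟩ := hA d₃ hd₃
  obtain ⟨d₅, hd₅, hπ5⟩ := Metric.uniformContinuous_iff.1 hπu d₄ hd₄
  refine ⟨min d₅ (d / 4), by positivity, fun n x hn hxn hx => ?_⟩
  obtain ⟨p, hp, hpx⟩ := hA4 n (fun j => π (x j)) hn (by simp [hxn]) (fun j hj => by
    have := hπ5 ((hx j hj).trans_le (min_le_left _ _))
    simpa [hπF] using this)
  have hex : ∀ i, ∃ y, i ≤ n → π y = A^[i] p ∧ dist (x i) y < a := by
    intro i
    by_cases hi : i ≤ n
    · obtain ⟨y, hy, hy'⟩ := hn3 (x i) (A^[i] p) (by rw [dist_comm]; exact hpx i hi)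
      exact ⟨y, fun _ => ⟨hy, hy'⟩⟩
    · exact ⟨x i, fun h => absurd h hi⟩
  choose e' he' using hex
  have hmod : ∀ j, j % n ≤ n := fun j => (Nat.mod_lt j hn).le
  have P1 : ∀ j, π (e' (j % n)) = A^[j] p := fun j => by
    rw [(he' _ (hmod j)).1]
    exact IsPeriodicPt.iterate_mod_apply (f := A) (n := n) hp j
  have P2 : ∀ j, dist (x (j % n)) (e' (j % n)) < a := fun j => (he' _ (hmod j)).2
  have hX1 : ∀ j, x ((j + 1) % n) = x (j % n + 1) := by
    intro j
    rcases Nat.lt_or_ge (j % n + 1) n with h | h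
    · rw [← Nat.mod_add_mod, Nat.mod_eq_of_lt h]
    · have h' : j % n + 1 = n := le_antisymm (Nat.mod_lt j hn) h
      rw [← Nat.mod_add_mod, h', Nat.mod_self, hxn]
  have P3 : ∀ j, dist (F (x (j % n))) (x ((j + 1) % n)) < min d₅ (d / 4) := by
    intro j
    rw [hX1]
    exact hx _ (Nat.mod_lt j hn)
  have hπs : ∀ j, π (F (e' (j % n))) = π (e' ((j + 1) % n)) := by
    intro j
    rw [hπF, P1, P1, iterate_succ_apply']
  have hdist : ∀ j, dist (F (e' (j % n))) (e' ((j + 1) % n)) < d := by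
    intro j
    have h1 : dist (F (e' (j % n))) (F (x (j % n))) < d / 4 := by
      apply hFb
      rw [dist_comm]
      exact (P2 j).trans_le hab
    have h2 := (P3 j).trans_le (min_le_right _ _)
    have h3 := P2 (j + 1)
    have h4 := dist_triangle4 (F (e' (j % n))) (F (x (j % n))) (x ((j + 1) % n))
      (e' ((j + 1) % n))
    linarith
  have hc : ∀ j, ∃ c : ℝ, |c| ≤ η / 2 ∧ F (e' (j % n)) = Circle.exp c • e' ((j + 1) % n) := by
    intro j
    obtain ⟨z, hz⟩ := (hfib _ _).1 (hπs j).symm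
    obtain ⟨c, hc, hcz⟩ := hd₁r z (e' ((j + 1) % n)) (by
      rw [hz]
      exact (hdist j).trans_le hdd₁)
    exact ⟨c, hc, by rw [hcz, hz]⟩
  choose c hc1 hc2 using hc
  have hw : ∀ i, ∃ w, F^[n] w = w ∧ π w = π (e' (i % n)) ∧ dist (e' (i % n)) w ≤ ε₂ := by
    intro i
    obtain ⟨s, hs, hs'⟩ := hclose n (η / 2) (by positivity) (fun j => e' ((i + j) % n))
      (fun j => c (i + j)) (fun j _ => hc1 _) (fun j _ => hc2 _) (by simp)
    have hs'' : (fun y => Circle.exp s • F y)^[n] (e' (i % n)) = e' (i % n) := by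
      simpa using hs'
    exact hFη s (by linarith) n _ hn hs''
  choose w hw1 hw2 hw3 using hw
  have hper : ∀ i, w i ∈ periodicPts F := fun i => mk_mem_periodicPts hn (hw1 i)
  have hstep : ∀ i, F (w i) = w (i + 1) := by
    intro i
    by_contra hne
    have hperF : F (w i) ∈ periodicPts F := by
      refine mk_mem_periodicPts hn ?_
      show F^[n] (F (w i)) = F (w i)
      rw [← iterate_succ_apply, iterate_succ_apply', hw1]
    have hpi : π (F (w i)) = π (w (i + 1)) := by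
      rw [hπF, hw2, hw2, P1, P1, iterate_succ_apply']
    have h1 := hsep _ hperF _ (hper (i + 1)) hpi hne
    have h2 : dist (F (w i)) (F (e' (i % n))) < ρ / 4 := by
      apply hFa
      rw [dist_comm]
      exact (hw3 i).trans_lt hε₂a
    have h3 := hdist i
    have h4 := hw3 (i + 1)
    have h5 := dist_triangle4 (F (w i)) (F (e' (i % n))) (e' ((i + 1) % n)) (w (i + 1))
    linarith
  have hit : ∀ j, F^[j] (w 0) = w j := by
    intro j
    induction j with
    | zero => rfl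
    | succ j ih => rw [iterate_succ_apply', ih, hstep]
  have hlt : ∀ j, j < n → dist (w j) (x j) < ε := by
    intro j hj
    have h1 := hw3 j
    have h2 := P2 j
    rw [Nat.mod_eq_of_lt hj] at h1 h2
    have h3 := dist_triangle (w j) (e' j) (x j)
    rw [dist_comm (w j) (e' j), dist_comm (e' j) (x j)] at h3
    linarith
  refine ⟨w 0, hw1 0, fun j hj => ?_⟩
  rcases Nat.lt_or_ge j n with h | h
  · rw [hit]
    exact hlt j h
  · obtain rfl : j = n := le_antisymm hj h
    rw [hw1, hxn]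
    exact hlt 0 hn

end Pool.Agent.OmegaStability.TH
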