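import Pool.Agent.Work.MP_814647_an.TH.Stmts

set_option autoImplicit false

open Set Filter Topology Function

noncomputable section

namespace Pool.Agent.OmegaStability.TH

universe u v

namespace SpreadAux

lemma iter_cont {M : Type u} [TopologicalSpace M] (F : ℝ → M → M)
    (hF : Continuous (fun p : ℝ × M => F p.1 p.2)) (n : ℕ) :
    Continuous (fun p : ℝ × M => (F p.1)^[n] p.2) := by
  induction n with
  | zero => exact continuous_snd
  | succ n ih =>
    have h : (fun p : ℝ × M => (F p.1)^[n + 1] p.2) =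
        fun p : ℝ × M => F p.1 ((F p.1)^[n] p.2) := by
      funext p
      exact Function.iterate_succ_apply' _ _ _
    rw [h]
    exact hF.comp (continuous_fst.prodMk ih)

lemma near_point (S : Set ℝ) (t : ℝ) (ht : t ∈ closure S) (δ : ℝ) (hδ : 0 < δ) :
    ∃ s ∈ S, |s - t| < δ := by
  obtain ⟨s, hs, h⟩ := Metric.mem_closure_iff.1 ht δ hδ
  refine ⟨s, hs, ?_⟩
  rw [dist_comm, Real.dist_eq] at h
  exact h

end SpreadAux

theorem prf_Spread : Spread.{u, v} := by
  intro M B _ _ _ π F a b ε S hπ hF hS hcl hε hfol hcont s hs t ht n z hn hz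
  obtain ⟨η, hη, h1⟩ := hcont s hs n z hn hz ε hε
  obtain ⟨s₁, hs₁, hd⟩ := SpreadAux.near_point S s (hcl hs) η hη
  obtain ⟨z₁, hz₁, hπ₁, hd₁⟩ := h1 s₁ hd
  have h2 : ∀ k : ℕ, ∃ q : ℝ, |q - t| < 1 / ((k : ℝ) + 1) ∧ ∃ y : M, (F q)^[n] y = y ∧
      π y = π z₁ ∧ dist z₁ y ≤ ε := by
    intro k
    obtain ⟨q, hq, hqt⟩ := SpreadAux.near_point S t (hcl ht) (1 / ((k : ℝ) + 1))
      Nat.one_div_pos_of_nat
    obtain ⟨y, hy⟩ := hfol s₁ hs₁ q hq n z₁ hn hz₁
    exact ⟨q, hqt, y, hy⟩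
  choose q hq y hy hπy hdy using h2
  obtain ⟨z', φ, hφ, hlim⟩ := CompactSpace.tendsto_subseq y
  have hqt : Tendsto q atTop (𝓝 t) := by
    rw [tendsto_iff_dist_tendsto_zero]
    refine squeeze_zero (fun _ => dist_nonneg) (fun k => ?_)
      tendsto_one_div_add_atTop_nhds_zero_nat
    rw [Real.dist_eq]
    exact (hq k).le
  have hqφ : Tendsto (q ∘ φ) atTop (𝓝 t) := hqt.comp hφ.tendsto_atTop
  have hc : Tendsto (fun k => (F (q (φ k)))^[n] (y (φ k))) atTop (𝓝 ((F t)^[n] z')) := by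
    have h3 := ((SpreadAux.iter_cont F hF n).tendsto (t, z')).comp
      (hqφ.prodMk_nhds hlim)
    exact h3
  have hc2 : Tendsto (fun k => (F (q (φ k)))^[n] (y (φ k))) atTop (𝓝 z') := by
    refine hlim.congr fun k => ?_
    exact (hy (φ k)).symm
  refine ⟨z', tendsto_nhds_unique hc hc2, ?_, ?_⟩
  · have h4 : Tendsto (fun k => π (y (φ k))) atTop (𝓝 (π z')) :=
      (hπ.tendsto z').comp hlim
    have h5 : Tendsto (fun k => π (y (φ k))) atTop (𝓝 (π z)) := by
      refine tendsto_const_nhds.congr fun k => ?_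
      rw [hπy, hπ₁]
    exact tendsto_nhds_unique h4 h5
  · have h6 : Tendsto (fun k => dist z₁ (y (φ k))) atTop (𝓝 (dist z₁ z')) :=
      tendsto_const_nhds.dist hlim
    have h7 : dist z₁ z' ≤ ε := le_of_tendsto' h6 fun k => hdy (φ k)
    have h8 := dist_triangle z z₁ z'
    linarith

end Pool.Agent.OmegaStability.TH
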