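import Pool.Agent.Work.MP_814647_an.TH.Stmts

set_option autoImplicit false

open Set Filter Topology Function

noncomputable section

namespace Pool.Agent.OmegaStability.TH

universe u v

namespace TrEAux

theorem isClosed_Omega {M : Type u} [TopologicalSpace M] (f : M → M) : IsClosed (Omega f) := by
  rw [← isOpen_compl_iff, isOpen_iff_mem_nhds]
  intro x hx
  have hx' : ¬ ∀ U ∈ 𝓝 x, ∃ n : ℕ, 0 < n ∧ (f^[n] '' U ∩ U).Nonempty := hx
  push Not at hx'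
  obtain ⟨U, hU, hn⟩ := hx'
  obtain ⟨V, hVU, hV, hxV⟩ := mem_nhds_iff.1 hU
  refine mem_nhds_iff.2 ⟨V, fun y hy hyO => ?_, hV, hxV⟩
  obtain ⟨n, hn0, z, ⟨w, hw, hwz⟩, hz⟩ := hyO V (hV.mem_nhds hy)
  have h1 := hn n hn0
  have h2 : z ∈ f^[n] '' U ∩ U := ⟨⟨w, hVU hw, hwz⟩, hVU hz⟩
  rw [h1] at h2
  exact h2

end TrEAux

open TrEAux in
theorem prf_TrE : TrE.{u} := by
  intro M _ _ f g hf hg hconj hE
  obtain ⟨h, hh⟩ := hconj
  have : CompactSpace (Omega f) := isCompact_iff_compactSpace.1 (isClosed_Omega f).isCompact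
  have u1 := Metric.uniformContinuous_iff.1
    (CompactSpace.uniformContinuous_of_continuous h.continuous)
  obtain ⟨κ, hκ, HE⟩ := hE
  obtain ⟨d1, hd1, H1⟩ := u1 κ hκ
  refine ⟨d1 / 2, half_pos hd1, fun x y hx hy hxo hyo hd => ?_⟩
  have key := HE (fun j => (h ⟨x j, hx j⟩ : M)) (fun j => (h ⟨y j, hy j⟩ : M))
    (fun j => (h ⟨x j, hx j⟩).2) (fun j => (h ⟨y j, hy j⟩).2)
    (fun j => hh ⟨x j, hx j⟩ ⟨x (j + 1), hx (j + 1)⟩ (hxo j))
    (fun j => hh ⟨y j, hy j⟩ ⟨y (j + 1), hy (j + 1)⟩ (hyo j))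
    (fun j => by
      have h2 : dist (⟨x j, hx j⟩ : Omega f) (⟨y j, hy j⟩ : Omega f) < d1 := by
        have h3 : dist (x j) (y j) < d1 := lt_of_le_of_lt (hd j) (half_lt_self hd1)
        exact h3
      have h4 := H1 h2
      exact le_of_lt h4)
  have h5 : h ⟨x 0, hx 0⟩ = h ⟨y 0, hy 0⟩ := Subtype.ext key
  have h6 := h.injective h5
  exact congrArg Subtype.val h6

end Pool.Agent.OmegaStability.TH
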