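import Pool.Agent.Work.MP_814647_an.TH.Stmts

set_option autoImplicit false

open Set Filter Topology Function

noncomputable section

namespace Pool.Agent.OmegaStability.TH

universe u v

namespace TrSAux

theorem isClosed_Omega {M : Type u} [TopologicalSpace M] (f : M → M) : IsClosed (Omega f) := by
  rw [← isOpen_compl_iff, isOpen_iff_mem_nhds]
  intro x hx
  have hx' : ¬ ∀ U ∈ 𝓝 x, ∃ n : ℕ, 0 < n ∧ (f^[n] '' U ∩ U).Nonempty := hx
  push Not at hx'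
  obtain ⟨U, hU, hn⟩ := hx'
  obtain ⟨V, hVU, hV, hxV⟩ := mem_nhds_iff.1 hU
  refine mem_nhds_iff.2 ⟨V, fun y hy hyO => ?_, hV, hxV⟩
  obtain ⟨n, hn0, z, ⟨w, hw, hwz⟩, hz⟩ := hyO V (hV.mem_nhds hy)
  have h1 := hn n hn0
  have h2 : z ∈ f^[n] '' U ∩ U := ⟨⟨w, hVU hw, hwz⟩, hVU hz⟩
  rw [h1] at h2
  exact h2

theorem map_Omega {M : Type u} [TopologicalSpace M] {f : M → M} (hf : Continuous f) {x : M}
    (hx : x ∈ Omega f) : f x ∈ Omega f := by
  intro U hU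
  obtain ⟨n, hn0, z, ⟨w, hw, hwz⟩, hz⟩ := hx (f ⁻¹' U) (hf.continuousAt hU)
  refine ⟨n, hn0, f z, ⟨f w, hw, ?_⟩, hz⟩
  rw [← hwz, ← Function.iterate_succ_apply, Function.iterate_succ_apply']

end TrSAux

open TrSAux in
theorem prf_TrS : TrS.{u} := by
  intro M _ _ f g hf hg hconj hS ε hε
  obtain ⟨h, hh⟩ := hconj
  have : CompactSpace (Omega f) := isCompact_iff_compactSpace.1 (isClosed_Omega f).isCompact
  have : CompactSpace (Omega g) := isCompact_iff_compactSpace.1 (isClosed_Omega g).isCompact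
  have u1 := Metric.uniformContinuous_iff.1
    (CompactSpace.uniformContinuous_of_continuous h.continuous)
  have u2 := Metric.uniformContinuous_iff.1
    (CompactSpace.uniformContinuous_of_continuous h.symm.continuous)
  obtain ⟨e1, he1, H2⟩ := u2 ε hε
  obtain ⟨d1, hd1, HS⟩ := hS e1 he1
  obtain ⟨δ, hδ, H1⟩ := u1 d1 hd1
  refine ⟨δ, hδ, fun x hx hxj => ?_⟩
  -- the pseudo-orbit of `g`
  have hrel : ∀ j, g (h ⟨x j, hx j⟩) = h ⟨f (x j), map_Omega hf (hx j)⟩ := fun j =>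
    (hh ⟨x j, hx j⟩ ⟨f (x j), map_Omega hf (hx j)⟩ rfl).symm
  obtain ⟨y', hy', hyo, hyd⟩ := HS (fun j => (h ⟨x j, hx j⟩ : M)) (fun j => (h ⟨x j, hx j⟩).2)
    (fun j => by
      simp only [hrel]
      have := @H1 ⟨f (x j), map_Omega hf (hx j)⟩ ⟨x (j + 1), hx (j + 1)⟩ (hxj j)
      exact this)
  refine ⟨fun j => (h.symm ⟨y' j, hy' j⟩ : M), fun j => (h.symm ⟨y' j, hy' j⟩).2, fun j => ?_,
    fun j => ?_⟩
  · have e1 := hh (h.symm ⟨y' j, hy' j⟩)
      ⟨f (h.symm ⟨y' j, hy' j⟩), map_Omega hf (h.symm ⟨y' j, hy' j⟩).2⟩ rfl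
    rw [h.apply_symm_apply] at e1
    have e2 : h ⟨f (h.symm ⟨y' j, hy' j⟩), map_Omega hf (h.symm ⟨y' j, hy' j⟩).2⟩ =
        ⟨y' (j + 1), hy' (j + 1)⟩ := by
      apply Subtype.ext
      rw [e1]
      exact (hyo j).symm
    have e3 := congrArg h.symm e2
    rw [h.symm_apply_apply] at e3
    exact (congrArg Subtype.val e3).symm
  · have h3 : dist (h ⟨x j, hx j⟩) (⟨y' j, hy' j⟩ : Omega g) < e1 := hyd j
    have h4 := H2 h3
    rw [h.symm_apply_apply] at h4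
    exact h4

end Pool.Agent.OmegaStability.TH
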