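import Pool.Agent.Work.MP_814647_an.TH.Main
import Pool.Agent.Work.MP_814647_an.TH.I_Baire
import Pool.Agent.Work.MP_814647_an.TH.I_BaseEq
import Pool.Agent.Work.MP_814647_an.TH.I_Near
import Pool.Agent.Work.MP_814647_an.TH.I_Spread
import Pool.Agent.Work.MP_814647_an.TH.I_Generic
import Pool.Agent.Work.MP_814647_an.TH.I_Shadow
import Pool.Agent.Work.MP_814647_an.TH.I_PerE
import Pool.Agent.Work.MP_814647_an.TH.I_ChTrRev
import Pool.Agent.Work.MP_814647_an.TH.I_FinSh
import Pool.Agent.Work.MP_814647_an.TH.I_LimSh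
import Pool.Agent.Work.MP_814647_an.TH.I_ExpA
import Pool.Agent.Work.MP_814647_an.TH.I_ExpB
import Pool.Agent.Work.MP_814647_an.TH.I_TrE
import Pool.Agent.Work.MP_814647_an.TH.I_TrS
import Pool.Agent.Work.MP_814647_an.TH.I_NoCyc

/-!
# Topological hyperbolicity of Omega-stable circle extensions: assembly
-/

set_option autoImplicit false

open Set Filter Topology Function
open scoped Manifold ContDiff

noncomputable section

namespace Pool.Agent.OmegaStability.TH

universe u v

variable {m : ℕ} {B : Type v} {M : Type u} [MetricSpace B] [MetricSpace M] [CompactSpace M]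
  [ChartedSpace (EuclideanSpace ℝ (Fin m)) M]
  [IsManifold 𝓘(ℝ, EuclideanSpace ℝ (Fin m)) ∞ M] [MulAction Circle M]

theorem final_main {π : M → B} (hb : FreeCircleAction (EuclideanSpace ℝ (Fin m)) π) {r : ℕ∞}
    (hr : 1 ≤ r) {A : B → B} (hsh : PeriodicShadowing A) (hexp : ExpansiveOnPeriodic A)
    (f : Diffeo (EuclideanSpace ℝ (Fin m)) M r) (hcov : ∀ y, π (f y) = A (π y))
    (hcirc : PreservesOrientedCircles f) (hst : OmegaStable f) :
    TopologicallyHyperbolic f ∧ SplitsByCircleIndex (EuclideanSpace ℝ (Fin m)) f ∧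
      ∀ ε > 0, ∃ t : ℝ, |t| < ε ∧
        ∃ g : Diffeo (EuclideanSpace ℝ (Fin m)) M r, (∀ y, g y = Circle.exp t • f y) ∧
          PeriodicShadowing g ∧ HasNoCycles g := by
  obtain ⟨h1, h2⟩ := hyp_main prf_BaseEq (prf_Generic prf_Baire prf_Near prf_Spread) prf_Shadow
    prf_PerE (prf_FinSh prf_ChTr prf_Rev) prf_LimSh (prf_ExpB prf_ChTr prf_Rev prf_ExpA) prf_TrE
    prf_TrS (prf_NoCyc prf_ChTr prf_Rev) hb hr hsh hexp f hcov hcirc hst
  exact ⟨h1, Dens.index_main hb hr hsh hexp f hcov hcirc hst, h2⟩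

end Pool.Agent.OmegaStability.TH
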