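import Pool.Agent.Work.MP_814647_an.Bd.B07
import Pool.Agent.Work.MP_814647_an.TH.Stmts

/-!
# Continuation of the periodic points of circle extensions
-/

set_option autoImplicit false

open Set Filter Topology Function
open scoped Manifold ContDiff

noncomputable section

namespace Pool.Agent.OmegaStability.TH

open Dens

universe u v

theorem contAt_zero {M : Type u} {B : Type v} [MetricSpace M] [MulAction Circle M]
    (hact : Continuous fun p : Circle × M => p.1 • p.2)
    (hfree : ∀ (z : Circle) (y : M), z • y = y → z = 1) {π : M → B}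
    (hfib : ∀ y y' : M, π y = π y' ↔ ∃ z : Circle, z • y = y') {f : M → M}
    (hinj : Injective f) (hf : PreservesOrientedCircles f) {τ : ℝ} (hτ : 0 < τ)
    (hX : ∀ (e : M) (n : ℕ) (c : ℝ) (G : ℝ → ℝ → ℝ), 0 < n → RetMap f e n c G →
      NoTangency G τ) :
    ContAt π (fun t y => Circle.exp t • f y) 0 := by
  intro n z hn hz ε hε
  have hz' : f^[n] z = z := by
    have h1 : (fun y => Circle.exp 0 • f y) = f := by
      funext y
      rw [Circle.exp_zero, one_smul]
    have h2 : (fun y => Circle.exp 0 • f y)^[n] z = z := hz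
    rwa [h1] at h2
  obtain ⟨G, hG⟩ := exists_retMap hfree hinj hf hn (e := z) (c := 0)
    (by rw [hz', Circle.exp_zero, one_smul])
  have hNT := hX z n 0 G hn hG 0 (by rwa [abs_zero]) 0 hG.base
  have hcz : Continuous fun θ : ℝ => Circle.exp θ • z :=
    hact.comp (Circle.exp.continuous.prodMk continuous_const)
  have h0 : ∀ᶠ θ in 𝓝 (0 : ℝ), dist z (Circle.exp θ • z) < ε := by
    have h1 : Tendsto (fun θ : ℝ => dist z (Circle.exp θ • z)) (𝓝 0)
        (𝓝 (dist z (Circle.exp 0 • z))) := (continuous_const.dist hcz).tendsto 0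
    rw [Circle.exp_zero, one_smul, dist_self] at h1
    exact h1.eventually (gt_mem_nhds hε)
  obtain ⟨δ, hδ, hball⟩ := Metric.eventually_nhds_iff.1 h0
  have hbase : G 0 0 = 0 := hG.base
  -- a point where the displacement is negative
  obtain ⟨a, ha, haG⟩ : ∃ a, |a| < δ ∧ G 0 a < a := by
    by_contra hcon
    push Not at hcon
    apply hNT
    left
    filter_upwards [Metric.ball_mem_nhds (0 : ℝ) hδ] with x hx
    have h1 := hcon x (by simpa using hx)
    show G 0 0 - 0 ≤ G 0 x - x
    rw [hbase]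
    linarith
  obtain ⟨b, hb, hbG⟩ : ∃ b, |b| < δ ∧ b < G 0 b := by
    by_contra hcon
    push Not at hcon
    apply hNT
    right
    filter_upwards [Metric.ball_mem_nhds (0 : ℝ) hδ] with x hx
    have h1 := hcon x (by simpa using hx)
    show G 0 x - x ≤ G 0 0 - 0
    rw [hbase]
    linarith
  have hcs : ∀ θ, Continuous fun s => G s θ := fun θ =>
    hG.cont.comp (continuous_id.prodMk continuous_const)
  have h1 : ∀ᶠ s in 𝓝 (0 : ℝ), G s a < a :=
    (isOpen_lt (hcs a) continuous_const).mem_nhds haG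
  have h2 : ∀ᶠ s in 𝓝 (0 : ℝ), b < G s b :=
    (isOpen_lt continuous_const (hcs b)).mem_nhds hbG
  obtain ⟨η, hη, hηb⟩ := Metric.eventually_nhds_iff.1 (h1.and h2)
  refine ⟨η, hη, fun s hs => ?_⟩
  obtain ⟨hsa, hsb⟩ := hηb (y := s) (by simpa using hs)
  have hcθ : Continuous fun x => G s x - x :=
    (hG.cont.comp (continuous_const.prodMk continuous_id)).sub continuous_id
  obtain ⟨θ, hθ, hθz⟩ : ∃ θ ∈ uIcc a b, G s θ - θ = 0 := by
    have h3 := intermediate_value_uIcc (a := a) (b := b) (f := fun x => G s x - x)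
      hcθ.continuousOn
    have h4 : (0 : ℝ) ∈ uIcc (G s a - a) (G s b - b) := by
      rw [mem_uIcc]
      left
      exact ⟨by linarith, by linarith⟩
    obtain ⟨θ, hθ, h5⟩ := h3 h4
    exact ⟨θ, hθ, h5⟩
  have hθδ : |θ| < δ := by
    rw [abs_lt] at ha hb ⊢
    rcases mem_uIcc.1 hθ with ⟨h3, h4⟩ | ⟨h3, h4⟩
    · exact ⟨by linarith, by linarith⟩
    · exact ⟨by linarith, by linarith⟩
  refine ⟨Circle.exp θ • z, ?_, ?_, hball (by simpa using hθδ)⟩
  · have h3 := hG.map s θ
    have h4 : G s θ = θ := by linarith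
    rw [h4] at h3
    exact h3
  · exact ((hfib _ _).2 ⟨_, rfl⟩).symm

end Pool.Agent.OmegaStability.TH
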