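import Pool.Agent.Work.MP_814647_an.TH.Stmts

set_option autoImplicit false

open Set Filter Topology Function

noncomputable section

namespace Pool.Agent.OmegaStability.TH

universe u v

namespace LimShAux

theorem hyper_le : ((hyperfilter ℕ : Ultrafilter ℕ) : Filter ℕ) ≤ atTop := by
  rw [← Nat.cofinite_eq_atTop]
  exact hyperfilter_le_cofinite

theorem exists_lim {M : Type u} [MetricSpace M] [CompactSpace M] (y : ℕ → M) :
    ∃ z, Tendsto y (hyperfilter ℕ : Ultrafilter ℕ) (𝓝 z) := by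
  obtain ⟨z, _, hz⟩ := (isCompact_univ : IsCompact (univ : Set M)).ultrafilter_le_nhds
    (Ultrafilter.map y (hyperfilter ℕ)) (by simp)
  exact ⟨z, hz⟩

theorem iter_mem {M : Type u} [MetricSpace M] (F : M → M) (p : M) (hp : p ∈ periodicPts F)
    (n : ℕ) : F^[n] p ∈ periodicPts F := by
  obtain ⟨m, hm, hm2⟩ := hp
  exact ⟨m, hm, hm2.apply_iterate n⟩

end LimShAux

open LimShAux in
theorem prf_LimSh : LimSh.{u} := by
  intro M _ _ F hF hfin ε hε
  obtain ⟨δ, hδ, H⟩ := hfin (ε / 2) (half_pos hε)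
  refine ⟨δ, hδ, fun x hx hj => ?_⟩
  have hN : ∀ N : ℕ, ∃ p ∈ periodicPts F, ∀ j ≤ 2 * N,
      dist (F^[j] p) (x ((j : ℤ) - N)) < ε / 2 := by
    intro N
    refine H (2 * N) (fun j => x ((j : ℤ) - N)) (fun j _ => hx _) (fun j _ => ?_)
    have h1 := hj ((j : ℤ) - N)
    have h2 : (((j + 1 : ℕ) : ℤ) - N) = ((j : ℤ) - N) + 1 := by push_cast; ring
    change dist (F (x ((j : ℤ) - N))) (x (((j + 1 : ℕ) : ℤ) - N)) < δ
    rw [h2]
    exact h1
  choose p hp hd using hN
  choose z hz using fun j : ℤ => exists_lim (fun N => F^[(j + N).toNat] (p N))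
  have hev : ∀ j : ℤ, ∀ᶠ N : ℕ in ((hyperfilter ℕ : Ultrafilter ℕ) : Filter ℕ),
      j.natAbs ≤ N := fun j => (eventually_ge_atTop j.natAbs).filter_mono hyper_le
  refine ⟨z, fun j => ?_, fun j => ?_, fun j => ?_⟩
  · exact mem_closure_of_tendsto (hz j) (Eventually.of_forall fun N => iter_mem F _ (hp N) _)
  · refine tendsto_nhds_unique (hz (j + 1)) ?_
    refine ((hF.tendsto _).comp (hz j)).congr' ?_
    filter_upwards [hev j] with N hN
    have h1 : (j + 1 + (N : ℤ)).toNat = (j + N).toNat + 1 := by omega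
    rw [Function.comp_apply, h1, iterate_succ_apply']
  · refine lt_of_le_of_lt ?_ (half_lt_self hε)
    rw [dist_comm]
    refine le_of_tendsto ((hz j).dist tendsto_const_nhds) ?_
    filter_upwards [hev j] with N hN
    have h1 := hd N (j + N).toNat (by omega)
    have h2 : (((j + N).toNat : ℤ) - N) = j := by omega
    rw [h2] at h1
    exact h1.le

end Pool.Agent.OmegaStability.TH
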