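import Pool.Agent.Work.MP_814647_an.Idx9
import Pool.Agent.Work.MP_814647_an.TH.Cont

/-!
# Topological hyperbolicity of Omega-stable circle extensions
-/

set_option autoImplicit false

open Set Filter Topology Function
open scoped Manifold ContDiff

noncomputable section

namespace Pool.Agent.OmegaStability.TH

open Dens

universe u v

theorem isClosed_Omega {M : Type*} [TopologicalSpace M] (f : M → M) : IsClosed (Omega f) := by
  rw [← isOpen_compl_iff, isOpen_iff_mem_nhds]
  intro x hx
  have hx' : ¬ x ∈ Omega f := hx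
  unfold Omega at hx'
  simp only [Set.mem_ofPred_eq, not_forall] at hx'
  obtain ⟨U, hU, hno⟩ := hx'
  rw [mem_nhds_iff] at hU
  obtain ⟨V, hVU, hVo, hxV⟩ := hU
  filter_upwards [hVo.mem_nhds hxV] with y hy hyΩ
  apply hno
  obtain ⟨n, hn, hne⟩ := hyΩ V (hVo.mem_nhds hy)
  refine ⟨n, hn, hne.mono ?_⟩
  exact inter_subset_inter (image_mono hVU) hVU

theorem periodicPts_subset_Omega {M : Type*} [TopologicalSpace M] (f : M → M) :
    periodicPts f ⊆ Omega f := by
  rintro y ⟨n, hn, hy⟩ U hU
  have hy' : f^[n] y = y := hy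
  exact ⟨n, hn, y, ⟨y, mem_of_mem_nhds hU, hy'⟩, mem_of_mem_nhds hU⟩

variable {m : ℕ} {B : Type v} {M : Type u} [MetricSpace B] [MetricSpace M] [CompactSpace M]
  [ChartedSpace (EuclideanSpace ℝ (Fin m)) M]
  [IsManifold 𝓘(ℝ, EuclideanSpace ℝ (Fin m)) ∞ M] [MulAction Circle M]

theorem hyp_main (iBaseEq : BaseEq.{v}) (iGeneric : Generic.{u, v}) (iShadow : Shadow.{u, v})
    (iPer : PerE.{u, v}) (iFin : FinSh.{u}) (iLim : LimSh.{u}) (iExpB : ExpB.{u}) (iTrE : TrE.{u})
    (iTrS : TrS.{u}) (iNoCyc : NoCyc.{u})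
    {π : M → B} (hb : FreeCircleAction (EuclideanSpace ℝ (Fin m)) π) {r : ℕ∞}
    (hr : 1 ≤ r) {A : B → B} (hsh : PeriodicShadowing A) (hexp : ExpansiveOnPeriodic A)
    (f : Diffeo (EuclideanSpace ℝ (Fin m)) M r) (hcov : ∀ y, π (f y) = A (π y))
    (hcirc : PreservesOrientedCircles f) (hst : OmegaStable f) :
    TopologicallyHyperbolic f ∧ ∀ ε > 0, ∃ t : ℝ, |t| < ε ∧
      ∃ g : Diffeo (EuclideanSpace ℝ (Fin m)) M r, (∀ y, g y = Circle.exp t • f y) ∧
        PeriodicShadowing g ∧ HasNoCycles g := by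
  have hact : Continuous fun p : Circle × M => p.1 • p.2 := hb.smooth_action.continuous
  have hst' : OmegaStab.OmegaStable f := hst
  obtain ⟨N, hN, hfN, hNconj⟩ := hst'
  have hconj : OmegaStab.ConjClass N := OmegaStab.conjClass_of_conj hNconj
  obtain ⟨h, hfam, hh⟩ := exists_rot hb.smooth_action r
  have hev : ∀ᶠ t in 𝓝 (0 : ℝ), f.trans (h t) ∈ N := by
    let _ := OmegaStab.crTopology m M r
    exact (hfam.tendsto f).eventually (IsOpen.mem_nhds hN hfN)
  obtain ⟨τ, hτ, hball⟩ := Metric.eventually_nhds_iff.1 hev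
  have hτN : ∀ t : ℝ, |t| < τ → f.trans (h t) ∈ N := fun t ht => hball (by simpa using ht)
  have hfun : ∀ t, ⇑(f.trans (h t)) = fun y => Circle.exp t • f y := by
    intro t
    funext y
    exact hh t (f y)
  -- properties of all members of the family
  have hstN : ∀ g ∈ N, OmegaStable g := fun g hg =>
    ⟨N, hN, hg, fun g' hg' => hconj g hg g' hg'⟩
  have hcov' : ∀ t y, π ((f.trans (h t)) y) = A (π y) := by
    intro t y
    rw [hfun, ← hcov]
    exact ((hb.fibre _ _).2 ⟨_, rfl⟩).symm
  have hcirc' : ∀ t, PreservesOrientedCircles (f.trans (h t)) := by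
    intro t y
    obtain ⟨L, hL1, hL2, hL3⟩ := hcirc y
    refine ⟨L, hL1, hL2, fun θ => ?_⟩
    rw [hfun]
    show Circle.exp t • f (Circle.exp θ • y) = Circle.exp (L θ) • Circle.exp t • f y
    rw [hL3, smul_smul, smul_smul, mul_comm]
  have hdense : ∀ g ∈ N, (∀ y, π (g y) = A (π y)) → PreservesOrientedCircles g →
      Omega g = closure (periodicPts g) := by
    intro g hg h1 h2
    exact Subset.antisymm (dense_main hb hr (closingProperty_of_shadowing hsh) g h1 h2 (hstN g hg))
      (closure_minimal (periodicPts_subset_Omega _) (isClosed_Omega _))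
  have hshift : ∀ t s : ℝ, (fun y => Circle.exp s • (f.trans (h t)) y) =
      fun y => Circle.exp (t + s) • f y := by
    intro t s
    funext w
    rw [hfun]
    show Circle.exp s • Circle.exp t • f w = _
    rw [smul_smul, ← Circle.exp_add, add_comm]
  -- the family
  set F : ℝ → M → M := fun t y => Circle.exp t • f y with hF
  have hFcont : Continuous (fun p : ℝ × M => F p.1 p.2) := by
    have h1 : Continuous fun p : ℝ × M => (Circle.exp p.1, f p.2) :=
      (Circle.exp.continuous.comp continuous_fst).prodMk (f.continuous.comp continuous_snd)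
    exact hact.comp h1
  have hFcov : ∀ t y, π (F t y) = A (π y) := by
    intro t y
    have := hcov' t y
    rwa [hfun] at this
  have hFconj : ∀ t, |t| < τ → OmegaConjugate (F 0) (F t) := by
    intro t ht
    have h1 := hconj _ (hτN 0 (by rwa [abs_zero])) _ (hτN t ht)
    rw [hfun, hfun] at h1
    exact h1
  have hFct : ∀ t, |t| < τ → ContAt π F t := by
    intro t ht
    obtain ⟨τ', hτ', hX⟩ := exists_noTangency hb.smooth_action hb.free hr (f.trans (h t))
      (hstN _ (hτN t ht))
    have h1 := contAt_zero (B := B) hact hb.free hb.fibre (f := ⇑(f.trans (h t)))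
      (f.trans (h t)).injective (hcirc' t) hτ' hX
    intro n z hn hz ε hε
    obtain ⟨η, hη, h2⟩ := h1 n z hn (by
      show (fun y => Circle.exp 0 • (f.trans (h t)) y)^[n] z = z
      rw [hshift, add_zero]
      exact hz) ε hε
    refine ⟨η, hη, fun s hs => ?_⟩
    obtain ⟨z', h3, h4, h5⟩ := h2 (s - t) (by simpa using hs)
    refine ⟨z', ?_, h4, h5⟩
    have h6 : (fun y => Circle.exp (s - t) • (f.trans (h t)) y)^[n] z' = z' := h3
    rw [hshift, add_sub_cancel] at h6
    exact h6
  obtain ⟨κ, hκ, hPEA⟩ := iBaseEq B A hexp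
  -- a stable parameter
  have key : ∀ ε > 0, ∃ t : ℝ, |t| < ε ∧ |t| < τ ∧ PeriodicShadowing (f.trans (h t)) := by
    intro ε hε
    obtain ⟨t, ht, hstab⟩ := iGeneric M B π A F κ (min ε τ) hb.continuous_proj hκ hPEA hFcont hFcov
      (lt_min hε hτ) (fun t ht => hFconj t (ht.trans_le (min_le_right _ _)))
      (fun t ht => hFct t (ht.trans_le (min_le_right _ _)))
    have ht2 : |t| < τ := ht.trans_le (min_le_right _ _)
    refine ⟨t, ht.trans_le (min_le_left _ _), ht2, ?_⟩
    obtain ⟨ρ, hρ, hsep⟩ := separation_main hb hr (f.trans (h t)) (hcirc' t) (hstN _ (hτN t ht2))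
    refine iShadow M B π A (f.trans (h t)) ρ hb.continuous_proj (f.trans (h t)).continuous
      (hcov' t) hb.fibre ?_ ?_ ?_ hsh hρ hsep ?_
    · intro n ε hε e c hc hstep hn
      exact exists_close hb.free (hcirc' t) hε e c hc hstep hn
    · intro ε hε
      exact exists_small_rotation hact hb.free hε
    · intro ε hε
      exact exists_near_fibre hact hb.continuous_proj hb.surjective hb.fibre hε
    · intro ε hε
      obtain ⟨η, hη, h1⟩ := hstab ε hε
      refine ⟨η, hη, fun s hs => ?_⟩
      have h2 := h1 (t + s) (by simpa using hs)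
      rw [hshift, hfun]
      exact h2
  have hgen : ∀ t, |t| < τ → PeriodicShadowing (f.trans (h t)) →
      TopologicallyHyperbolic (f.trans (h t)) ∧ HasNoCycles (f.trans (h t)) := by
    intro t ht hps
    obtain ⟨ρ, hρ, hsep⟩ := separation_main hb hr (f.trans (h t)) (hcirc' t) (hstN _ (hτN t ht))
    obtain ⟨e, he, hPE⟩ := iPer M B π A (f.trans (h t)) κ ρ hb.continuous_proj (hcov' t) hκ hPEA hρ
      hsep
    have hc : Continuous (f.trans (h t)) := (f.trans (h t)).continuous
    have hΩ := hdense _ (hτN t ht) (hcov' t) (hcirc' t)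
    refine ⟨⟨hΩ, ?_, ?_⟩, ?_⟩
    · rw [hΩ]
      exact iExpB M _ e hc hps he hPE
    · rw [hΩ]
      exact iLim M _ hc (iFin M _ hc hps)
    · exact iNoCyc M _ _ hc (f.trans (h t)).symm.continuous (f.trans (h t)).symm_apply_apply
        (f.trans (h t)).apply_symm_apply hps hΩ
  refine ⟨?_, ?_⟩
  · obtain ⟨t, -, ht, hps⟩ := key 1 one_pos
    obtain ⟨⟨-, h1, h2⟩, -⟩ := hgen t ht hps
    have hc : OmegaConjugate f (f.trans (h t)) := hconj f hfN _ (hτN t ht)
    exact ⟨hdense f hfN hcov hcirc,
      iTrE M f _ f.continuous (f.trans (h t)).continuous hc h1,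
      iTrS M f _ f.continuous (f.trans (h t)).continuous hc h2⟩
  · intro ε hε
    obtain ⟨t, ht1, ht2, hps⟩ := key ε hε
    exact ⟨t, ht1, f.trans (h t), fun y => by rw [hfun], hps, (hgen t ht2 hps).2⟩

end Pool.Agent.OmegaStability.TH
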